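import Pool.Agent.Helper237.Blocks

namespace Pool.Agent.Helper237

open Set Filter Topology

namespace G

/-- entrance conjugacies -/
theorem ent (f : G) (p ν δ : ℝ) (hν : 1 < ν) (hδ : 0 < δ) (hδ' : δ ≤ 1 / ν)
    (h0 : 0 < 1 / ν) (h1 : 1 / ν < 1)
    (hf : ∀ t, p ≤ t → t ≤ p + δ → f t = p + ν * (t - p)) :
    ∃ Φ : ℕ → G, (∀ k, Φ k p = 48) ∧
      (∀ k t, t ≤ (f ^ k) (p + δ) → Φ (k + 1) t = Φ k t) ∧
      (∀ k, Φ k ((f ^ k) (p + δ)) = ((cm (We (1 / ν) h0 h1)) ^ k) (48 + δ)) ∧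
      (∀ k t, p ≤ t → Φ (k + 1) (f t) = cm (We (1 / ν) h0 h1) (Φ k t)) := by
  set g := cm (We (1 / ν) h0 h1) with hg
  have hν0 : 0 < ν := by linarith
  have hfp : f p = p := by rw [hf p le_rfl (by linarith)]; ring
  have hfkp : ∀ k : ℕ, (f ^ k)⁻¹ p = p := fun k => inv_fix _ (pow_fix f hfp k)
  have hg48 : g 48 = 48 := ge_a le_rfl
  have hgk : ∀ k : ℕ, (g ^ k) 48 = 48 := pow_fix g hg48
  have hgl : ∀ k : ℕ, tr (48 - p) p = (g ^ k * tr (48 - p) * (f ^ k)⁻¹) p := by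
    intro k
    rw [mul_apply, mul_apply, hfkp, tr_apply]
    rw [show p + (48 - p) = 48 by ring, hgk]
  have loc : ∀ u, p ≤ u → u ≤ p + δ → g (tr (48 - p) u) = tr (48 - p) (f u) := by
    intro u hu1 hu2
    rw [hf u hu1 hu2, hg, ge_d]
    · simp only [tr_apply]; field_simp; ring
    · rw [tr_apply]; linarith
    · rw [tr_apply]; linarith
  have hff : p + δ ≤ f (p + δ) := by
    rw [hf _ (by linarith) le_rfl]; nlinarith
  refine ⟨fun k => glue (tr (48 - p)) (g ^ k * tr (48 - p) * (f ^ k)⁻¹) p (hgl k),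
    ?_, ?_, ?_, ?_⟩
  · intro k
    simp only
    rw [glue_le le_rfl, tr_apply]; ring
  · intro k t ht
    simp only
    rcases le_total t p with h | h
    · rw [glue_le h, glue_le h]
    · rw [glue_ge h, glue_ge h]
      simp only [mul_apply]
      set w := (f ^ k)⁻¹ t with hw
      have hw1 : p ≤ w := by
        rw [hw, le_inv_iff, pow_fix f hfp]; exact h
      have hw2 : w ≤ p + δ := by
        rw [hw, inv_le_iff]; exact ht
      have e1 : (f ^ (k + 1))⁻¹ t = f⁻¹ w := by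
        rw [inv_eq_iff, pow_succ_apply', apply_inv_self, hw, apply_inv_self]
      have hu1 : p ≤ f⁻¹ w := by rw [le_inv_iff, hfp]; exact hw1
      have hu2 : f⁻¹ w ≤ p + δ := by rw [inv_le_iff]; linarith
      rw [e1, pow_succ_apply', loc _ hu1 hu2, apply_inv_self]
  · intro k
    simp only
    have h2 : p ≤ (f ^ k) (p + δ) := by
      conv_lhs => rw [← pow_fix f hfp k]
      rw [le_iff]; linarith
    rw [glue_ge h2]
    simp only [mul_apply, inv_apply_self, tr_apply]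
    congr 1; ring
  · intro k t ht
    simp only
    have h2 : p ≤ f t := by
      calc p = f p := hfp.symm
        _ ≤ f t := f.le_iff.2 ht
    rw [glue_ge h2, glue_ge ht]
    simp only [mul_apply]
    have e1 : (f ^ (k + 1))⁻¹ (f t) = (f ^ k)⁻¹ t := by
      rw [inv_eq_iff, pow_succ_apply, apply_inv_self]
    rw [e1, pow_succ_apply]

theorem slope_gt {f : G} {p ν δ : ℝ} (hδ : 0 < δ)
    (hf : ∀ t, p ≤ t → t ≤ p + δ → f t = p + ν * (t - p)) (h : p + δ < f (p + δ)) : 1 < ν := by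
  rw [hf _ (by linarith) le_rfl] at h
  have : δ < ν * δ := by linarith
  by_contra hc
  push Not at hc
  nlinarith

theorem tail_up (f : G) (p : ℝ) (hp : f p = p) (hf : ∀ x, p < x → x < f x) :
    ∃ Φ W, HB f p Φ W := by
  obtain ⟨ν, δ0, hν0, hδ0, hloc⟩ := f.ra_pos p
  rw [hp] at hloc
  have hν : 1 < ν := slope_gt hδ0 hloc (hf _ (by linarith))
  have h0 : 0 < 1 / ν := by positivity
  have h1 : 1 / ν < 1 := by rw [div_lt_one hν0]; exact hν
  set δ := min δ0 (1 / ν) with hδdef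
  have hδ : 0 < δ := lt_min hδ0 h0
  have hδ1 : δ ≤ δ0 := min_le_left _ _
  have hδ2 : δ ≤ 1 / ν := min_le_right _ _
  obtain ⟨Φ, e1, e2, e3, e4⟩ := ent f p ν δ hν hδ hδ2 h0 h1
    (fun t ht1 ht2 => hloc t ht1 (by linarith))
  have hmono : Monotone (fun k : ℕ => (f ^ k) (p + δ)) :=
    pow_mono_of_lt f (hf _ (by linarith)).le
  have hunb : ∀ B, ∃ n : ℕ, B ≤ (f ^ n) (p + δ) := by
    intro B
    obtain ⟨n, hn⟩ := f.orb (p + δ) B (fun x hx _ => hf x (by linarith))
    exact ⟨n, hn.le⟩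
  have hv : ∀ B, ∃ n : ℕ, B ≤ Φ n ((f ^ n) (p + δ)) := by
    intro B
    obtain ⟨n, hn⟩ := (cm (We (1 / ν) h0 h1)).orb (48 + δ) B (fun x hx _ => ge_c (by linarith))
    exact ⟨n, by rw [e3]; exact hn.le⟩
  obtain ⟨Ψ, hΨ⟩ := exists_lim Φ (fun k => (f ^ k) (p + δ)) hunb hmono e2 hv
  refine ⟨Ψ, We (1 / ν) h0 h1, ?_, fun x hx => We_a hx, ?_⟩
  · rw [hΨ 0 p (by simp; linarith), e1]
  · intro x hx
    obtain ⟨k, hk⟩ := hunb x
    rw [hΨ (k + 1) (f x) (by rw [pow_succ_apply]; exact f.le_iff.2 hk), e4 k x hx,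
      hΨ k x hk]

theorem tail_dn (f : G) (p : ℝ) (hp : f p = p) (hf : ∀ x, p < x → f x < x) :
    ∃ Φ W, HB f p Φ W := by
  obtain ⟨Φ, W, h⟩ := tail_up f⁻¹ p (inv_fix _ hp) (by
    intro x hx
    have : p < f⁻¹ x := by rw [lt_inv_iff, hp]; exact hx
    have := hf _ this
    rwa [apply_inv_self] at this)
  have := h.inv (inv_fix _ hp)
  rw [inv_inv] at this
  exact ⟨_, _, this⟩

/-- sign of displacement on an interval without fixed points -/
theorem sign_ioo (f : G) (a b : ℝ) (h : ∀ x, a < x → x < b → f x ≠ x) :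
    (∀ x, a < x → x < b → x < f x) ∨ (∀ x, a < x → x < b → f x < x) := by
  by_contra hcon
  push Not at hcon
  obtain ⟨⟨x, hx1, hx2, hx3⟩, ⟨y, hy1, hy2, hy3⟩⟩ := hcon
  have hx4 : f x - x ≤ 0 := by linarith
  have hy4 : 0 ≤ f y - y := by linarith
  have hc : ContinuousOn (fun t => f t - t) (Set.uIcc x y) :=
    (f.cont.sub continuous_id).continuousOn
  have := intermediate_value_uIcc hc
  have h0 : (0 : ℝ) ∈ Set.uIcc (f x - x) (f y - y) := by
    rw [Set.mem_uIcc]; left; exact ⟨hx4, hy4⟩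
  obtain ⟨t, ht, ht0⟩ := this h0
  have ht1 : a < t ∧ t < b := by
    rw [Set.mem_uIcc] at ht
    rcases ht with ht | ht
    · exact ⟨by linarith [ht.1], by linarith [ht.2]⟩
    · exact ⟨by linarith [ht.1], by linarith [ht.2]⟩
  exact h t ht1.1 ht1.2 (by simpa [sub_eq_zero] using ht0)

theorem sign_ioi (f : G) (a : ℝ) (h : ∀ x, a < x → f x ≠ x) :
    (∀ x, a < x → x < f x) ∨ (∀ x, a < x → f x < x) := by
  by_contra hcon
  push Not at hcon
  obtain ⟨⟨x, hx1, hx3⟩, ⟨y, hy1, hy3⟩⟩ := hcon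
  rcases sign_ioo f a (max x y + 1) (fun t ht _ => h t ht) with h' | h'
  · have := h' x hx1 (by linarith [le_max_left x y]); linarith
  · have := h' y hy1 (by linarith [le_max_right x y]); linarith

theorem sign_univ (f : G) (h : ∀ x, f x ≠ x) :
    (∀ x, x < f x) ∨ (∀ x, f x < x) := by
  by_contra hcon
  push Not at hcon
  obtain ⟨⟨x, hx3⟩, ⟨y, hy3⟩⟩ := hcon
  rcases sign_ioi f (min x y - 1) (fun t _ => h t) with h' | h'
  · have := h' x (by linarith [min_le_left x y]); linarith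
  · have := h' y (by linarith [min_le_right x y]); linarith

theorem cm_one : cm 1 = 1 := by unfold cm; group

theorem id_block (f : G) (p q : ℝ) (hpq : p < q) (h : ∀ x, p ≤ x → x ≤ q → f x = x) :
    ∃ Φ W, CB f p q 1 Φ W := by
  have hs : 0 < 66 / (q - p) := div_pos (by norm_num) (by linarith)
  have hne : q - p ≠ 0 := by linarith
  refine ⟨aff (66 / (q - p)) (48 - 66 / (q - p) * p) hs, 1, le_rfl, ?_, ?_,
    fun _ _ => rfl, fun _ _ => rfl, ?_⟩
  · simp
  · simp; field_simp; ring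
  · intro x h1 h2
    rw [cm_one, h x h1 h2]; rfl

/-- the statement about single bumps, proved later -/
def BumpStmt : Prop := ∀ (f : G) (p q : ℝ), p < q → f p = p → f q = q →
  (∀ x, p < x → x < q → x < f x) → ∃ K Φ W, CB f p q K Φ W

theorem cb_exists (hB : BumpStmt) (f : G) (p q : ℝ) (hpq : p < q) (hp : f p = p)
    (hq : f q = q) : ∃ K Φ W, CB f p q K Φ W := by
  have key : (p ≤ q ∧ f q = q ∧ ∃ K Φ W, CB f p q K Φ W) := by
    refine chain {x | f x = x} (isClosed_eq f.cont continuous_id)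
      (fun x y => x ≤ y ∧ f y = y ∧ ∃ K Φ W, CB f x y K Φ W) ?_ p q hpq hp ?_ ?_
    · rintro x y z ⟨h1, h2, K, Φ, W, h3⟩ ⟨h4, h5, K', Φ', W', h6⟩
      obtain ⟨Φ₂, W₂, h7, _, _⟩ := h3.join h6 h2 h1 h4
      exact ⟨h1.trans h4, h5, K + K', Φ₂, W₂, h7⟩
    · intro x hx hpx hxq
      have hx : f x = x := hx
      obtain ⟨a, δ, ha, hδ, H⟩ := f.ra_pos x
      rw [hx] at H
      set m := min (x + δ) q with hm
      have hxm : x < m := lt_min (by linarith) hxq
      have hm1 : m ≤ x + δ := min_le_left _ _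
      have hm2 : m ≤ q := min_le_right _ _
      by_cases ha1 : a = 1
      · subst ha1
        have hid : ∀ t, x ≤ t → t ≤ m → f t = t := by
          intro t h1 h2
          rw [H t h1 (h2.trans hm1)]; ring
        obtain ⟨Φ, W, h⟩ := id_block f x m hxm hid
        exact ⟨m, hid m hxm.le le_rfl, hxm, hm2, hxm.le, hid m hxm.le le_rfl, 1, Φ, W, h⟩
      · set S : Set ℝ := {t | f t = t ∧ m ≤ t} with hS
        have hScl : IsClosed S := (isClosed_eq f.cont continuous_id).inter isClosed_Ici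
        have hSne : S.Nonempty := ⟨q, hq, hm2⟩
        have hSbd : BddBelow S := ⟨m, fun t ht => ht.2⟩
        have hy : sInf S ∈ S := hScl.csInf_mem hSne hSbd
        set y := sInf S
        have hyq : y ≤ q := csInf_le hSbd ⟨hq, hm2⟩
        have hxy : x < y := hxm.trans_le hy.2
        have hnf : ∀ t, x < t → t < y → f t ≠ t := by
          intro t h1 h2 h3
          rcases le_total m t with h | h
          · have : y ≤ t := csInf_le hSbd ⟨h3, h⟩
            linarith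
          · rw [H t h1.le (h.trans hm1)] at h3
            have : (a - 1) * (t - x) = 0 := by linarith
            rcases mul_eq_zero.1 this with h4 | h4
            · exact ha1 (by linarith)
            · linarith
        refine ⟨y, hy.1, hxy, hyq, hxy.le, hy.1, ?_⟩
        rcases sign_ioo f x y hnf with h | h
        · exact hB f x y hxy hx hy.1 h
        · obtain ⟨K, Φ, W, hcb⟩ := hB f⁻¹ x y hxy (inv_fix _ hx) (inv_fix _ hy.1) (by
            intro t h1 h2
            have e1 : x < f⁻¹ t := by rw [lt_inv_iff, hx]; exact h1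
            have e2 : f⁻¹ t < y := by rw [inv_lt_iff, hy.1]; exact h2
            have := h _ e1 e2
            rwa [apply_inv_self] at this)
          have := hcb.inv (inv_fix _ hx) (inv_fix _ hy.1)
          rw [inv_inv] at this
          exact ⟨_, _, _, this⟩
    · intro z hz hpz hzq
      have hz : f z = z := hz
      obtain ⟨a, δ, ha, hδ, H⟩ := f.la_pos z
      rw [hz] at H
      refine ⟨δ, hδ, fun y hy hpy hzy hyz => ?_⟩
      have hy : f y = y := hy
      by_cases ha1 : a = 1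
      · subst ha1
        have hid : ∀ t, y ≤ t → t ≤ z → f t = t := by
          intro t h1 h2
          rw [H t (by linarith) h2]; ring
        obtain ⟨Φ, W, h⟩ := id_block f y z hyz hid
        exact ⟨hyz.le, hz, 1, Φ, W, h⟩
      · exfalso
        rw [H y hzy.le hyz.le] at hy
        have : (a - 1) * (y - z) = 0 := by linarith
        rcases mul_eq_zero.1 this with h4 | h4
        · exact ha1 (by linarith)
        · linarith
  exact key.2.2

theorem hb_bounded (hB : BumpStmt) (f : G) (p : ℝ) (hp : f p = p)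
    (hbd : BddAbove {x | f x = x ∧ p ≤ x}) : ∃ Φ W, HB f p Φ W := by
  set S : Set ℝ := {x | f x = x ∧ p ≤ x} with hS
  have hScl : IsClosed S := (isClosed_eq f.cont continuous_id).inter isClosed_Ici
  have hSne : S.Nonempty := ⟨p, hp, le_rfl⟩
  have hq : sSup S ∈ S := hScl.csSup_mem hSne hbd
  set q := sSup S
  have hnf : ∀ x, q < x → f x ≠ x := by
    intro x hx hfx
    have : x ≤ q := le_csSup hbd ⟨hfx, hq.2.trans hx.le⟩
    linarith
  have htail : ∃ Φ W, HB f q Φ W := by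
    rcases sign_ioi f q hnf with h | h
    · exact tail_up f q hq.1 h
    · exact tail_dn f q hq.1 h
  obtain ⟨Φ, W, hH⟩ := htail
  rcases hq.2.eq_or_lt with h | h
  · rw [← h] at hH; exact ⟨_, _, hH⟩
  · obtain ⟨K, Φ', W', hC⟩ := cb_exists hB f p q h hp hq.1
    exact hC.joinH hH hq.1 h.le

theorem hb_unbounded (hB : BumpStmt) (f : G) (p : ℝ) (hp : f p = p)
    (hub : ∀ B, ∃ x, B ≤ x ∧ f x = x) : ∃ Φ W, HB f p Φ W := by
  let S := {s : ℝ × ℕ × G × G // f s.1 = s.1 ∧ p ≤ s.1 ∧ CB f p s.1 s.2.1 s.2.2.1 s.2.2.2}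
  have step : ∀ s : S, ∃ s' : S, s.1.1 + 1 ≤ s'.1.1 ∧ s.1.2.1 + 1 ≤ s'.1.2.1 ∧
      (∀ x, x ≤ s.1.1 → s'.1.2.2.1 x = s.1.2.2.1 x) ∧
      (∀ x, x ≤ 48 + 66 * (s.1.2.1 : ℝ) → s'.1.2.2.2 x = s.1.2.2.2 x) := by
    rintro ⟨⟨q, K, Φ, W⟩, h1, h2, h3⟩
    simp only at h1 h2 h3
    obtain ⟨r, hr1, hr2⟩ := hub (q + 1)
    obtain ⟨L, Φ', W', h4⟩ := cb_exists hB f q r (by linarith) h1 hr2
    obtain ⟨Φ₂, W₂, h5, h6, h7⟩ := h3.join h4 h1 h2 (by linarith)
    refine ⟨⟨⟨r, K + L, Φ₂, W₂⟩, hr2, by simp only; linarith, h5⟩, hr1, ?_, h6, h7⟩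
    have := h4.1
    simp only; lia
  choose nxt hnxt using step
  have base : Nonempty S := by
    obtain ⟨r, hr1, hr2⟩ := hub (p + 1)
    obtain ⟨L, Φ', W', h4⟩ := cb_exists hB f p r (by linarith) hp hr2
    exact ⟨⟨⟨r, L, Φ', W'⟩, hr2, by simp only; linarith, h4⟩⟩
  obtain ⟨s0⟩ := base
  let s : ℕ → S := fun n => Nat.rec s0 (fun _ t => nxt t) n
  have hs : ∀ n, s (n + 1) = nxt (s n) := fun n => rfl
  have hq : ∀ n : ℕ, (n : ℝ) + p ≤ (s n).1.1 := by
    intro n
    induction n with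
    | zero => simpa using (s 0).2.2.1
    | succ n ih =>
      rw [hs]
      have := (hnxt (s n)).1
      push_cast; linarith
  have hK : ∀ n : ℕ, n ≤ (s n).1.2.1 := by
    intro n
    induction n with
    | zero => exact Nat.zero_le _
    | succ n ih =>
      rw [hs]
      have := (hnxt (s n)).2.1
      lia
  have hqm : Monotone (fun n => (s n).1.1) := monotone_nat_of_le_succ fun n => by
    rw [hs]
    have := (hnxt (s n)).1
    linarith
  have hKm : Monotone (fun n => 48 + 66 * ((s n).1.2.1 : ℝ)) := monotone_nat_of_le_succ fun n => by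
    rw [hs]
    have := (hnxt (s n)).2.1
    have : ((s n).1.2.1 : ℝ) + 1 ≤ ((nxt (s n)).1.2.1 : ℝ) := by exact_mod_cast this
    linarith
  have hqub : ∀ B, ∃ n, B ≤ (s n).1.1 := by
    intro B
    obtain ⟨n, hn⟩ := exists_nat_gt (B - p)
    exact ⟨n, by linarith [hq n]⟩
  have hKub : ∀ B, ∃ n, B ≤ 48 + 66 * ((s n).1.2.1 : ℝ) := by
    intro B
    obtain ⟨n, hn⟩ := exists_nat_gt B
    have : (n : ℝ) ≤ ((s n).1.2.1 : ℝ) := by exact_mod_cast hK n
    have h0 : (0 : ℝ) ≤ n := Nat.cast_nonneg n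
    exact ⟨n, by linarith⟩
  obtain ⟨Ψ, hΨ⟩ := exists_lim (fun n => (s n).1.2.2.1) (fun n => (s n).1.1) hqub hqm
    (fun n t ht => by
      rw [hs]; exact (hnxt (s n)).2.2.1 t ht)
    (fun B => by
      obtain ⟨n, hn⟩ := hKub B
      exact ⟨n, by rw [(s n).2.2.2.2.2.1]; exact hn⟩)
  obtain ⟨V, hV⟩ := exists_lim (fun n => (s n).1.2.2.2) (fun n => 48 + 66 * ((s n).1.2.1 : ℝ))
    hKub hKm
    (fun n t ht => by
      rw [hs]; exact (hnxt (s n)).2.2.2 t ht)
    (fun B => by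
      obtain ⟨n, hn⟩ := hKub B
      exact ⟨n, by rw [(s n).2.2.2.2.2.2.2.1 _ (by linarith)]; exact hn⟩)
  refine ⟨Ψ, V, ?_, ?_, ?_⟩
  · rw [hΨ 0 p (s 0).2.2.1]
    exact (s 0).2.2.2.2.1
  · intro x hx
    have hc0 : (0 : ℝ) ≤ ((s 0).1.2.1 : ℝ) := Nat.cast_nonneg _
    rw [hV 0 x (by linarith)]
    exact (s 0).2.2.2.2.2.2.1 x hx
  · intro x hx
    obtain ⟨n, hn⟩ := hqub x
    obtain ⟨c0, c1, c2, c3, c4, c5⟩ := (s n).2.2.2
    have hfx : f x ≤ (s n).1.1 := by
      rw [← (s n).2.1, f.le_iff]; exact hn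
    rw [hΨ n _ hfx, hΨ n _ hn, c5 x hx hn]
    symm
    have hL' : (1 : ℝ) ≤ (s n).1.2.1 := by exact_mod_cast c0
    refine cut_le (c := 48 + 66 * (s n).1.2.1) (E_node _) (hV n)
      (c4 _ (by linarith)) (c4 _ (by linarith)) ?_
    rw [← c2, le_iff]; exact hn

theorem hb_exists (hB : BumpStmt) (f : G) (p : ℝ) (hp : f p = p) : ∃ Φ W, HB f p Φ W := by
  by_cases hbd : BddAbove {x | f x = x ∧ p ≤ x}
  · exact hb_bounded hB f p hp hbd
  · refine hb_unbounded hB f p hp fun B => ?_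
    rw [not_bddAbove_iff] at hbd
    obtain ⟨x, ⟨hx, _⟩, hBx⟩ := hbd B
    exact ⟨x, hBx.le, hx⟩

theorem main_of_bump (hB : BumpStmt) (f : G) : ∃ Φ W : G, Φ * f = cm W * Φ := by
  by_cases hfix : ∃ p, f p = p
  · obtain ⟨p, hp⟩ := hfix
    obtain ⟨Φ, W, hH⟩ := hb_exists hB f p hp
    obtain ⟨Φ', W', hH'⟩ := hb_exists hB (rf f⁻¹) (30 - p) (by
      rw [rf_apply, sub_sub_cancel, inv_fix f hp])
    obtain ⟨Φ₂, W₂, hL⟩ := hH'.reflect hp
    exact hL.joinH hH hp
  · push Not at hfix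
    have up : ∀ f : G, (∀ x, x < f x) → ∃ Φ W : G, Φ * f = cm W * Φ := by
      intro f hf
      have h0 : 0 < 1 / f 0 := div_pos one_pos (hf 0)
      obtain ⟨H, _, hH⟩ := exists_ext f (tr 1) (aff (1 / f 0) 0 h0) 0 hf (fun x => by simp) (by
        simp [(hf 0).ne'])
      refine ⟨H, WT, ?_⟩
      rw [cm_WT]
      ext x
      exact hH x
    rcases sign_univ f hfix with h | h
    · exact up f h
    · obtain ⟨Φ, W, hW⟩ := up f⁻¹ (fun x => by
        have := h (f⁻¹ x)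
        rwa [apply_inv_self] at this)
      refine ⟨W * Φ, W⁻¹, ?_⟩
      ext x
      rw [mul_apply, mul_apply]
      have := inv_rel (f := f⁻¹) (Φ := Φ) (W := W) (x := x) (congrArg (fun u : G => u (f⁻¹⁻¹ x)) hW)
      rw [inv_inv] at this
      exact this

end G

end Pool.Agent.Helper237
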