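import Mathlib

namespace Pool.Agent.Helper237

open Set Filter Topology

/-- affine on a short interval to the right of the point -/
def RA (f : ℝ → ℝ) (x : ℝ) : Prop :=
  ∃ a δ : ℝ, 0 < δ ∧ ∀ t, x ≤ t → t ≤ x + δ → f t = f x + a * (t - x)

/-- affine on a short interval to the left of the point -/
def LA (f : ℝ → ℝ) (x : ℝ) : Prop :=
  ∃ a δ : ℝ, 0 < δ ∧ ∀ t, x - δ ≤ t → t ≤ x → f t = f x + a * (t - x)

theorem RA.congr {f g : ℝ → ℝ} {x e : ℝ} (h : RA f x) (he : 0 < e)
    (hfg : ∀ t, x ≤ t → t ≤ x + e → g t = f t) : RA g x := by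
  obtain ⟨a, δ, hδ, H⟩ := h
  refine ⟨a, min δ e, lt_min hδ he, fun t h1 h2 => ?_⟩
  have h3 : t ≤ x + δ := h2.trans (by linarith [min_le_left δ e])
  have h4 : t ≤ x + e := h2.trans (by linarith [min_le_right δ e])
  rw [hfg t h1 h4, H t h1 h3, hfg x le_rfl (by linarith)]

theorem LA.congr {f g : ℝ → ℝ} {x e : ℝ} (h : LA f x) (he : 0 < e)
    (hfg : ∀ t, x - e ≤ t → t ≤ x → g t = f t) : LA g x := by
  obtain ⟨a, δ, hδ, H⟩ := h
  refine ⟨a, min δ e, lt_min hδ he, fun t h1 h2 => ?_⟩
  have h3 : x - δ ≤ t := le_trans (by linarith [min_le_left δ e]) h1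
  have h4 : x - e ≤ t := le_trans (by linarith [min_le_right δ e]) h1
  rw [hfg t h4 h2, H t h3 h2, hfg x (by linarith) le_rfl]

/-- the group of increasing piecewise affine homeomorphisms -/
structure G where
  e : ℝ ≃o ℝ
  pl : ∀ x, RA e x ∧ LA e x

namespace G

instance : FunLike G ℝ ℝ where
  coe f := f.e
  coe_injective := by
    intro f g h
    cases f; cases g
    congr
    exact DFunLike.coe_injective h

@[ext] theorem ext {f g : G} (h : ∀ x, f x = g x) : f = g := DFunLike.ext f g h

theorem coe_e (f : G) (x : ℝ) : f.e x = f x := rfl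

theorem smono (f : G) : StrictMono f := f.e.strictMono

theorem surj (f : G) : Function.Surjective f := f.e.surjective

theorem cont (f : G) : Continuous f := f.e.continuous

theorem lt_iff (f : G) {x y : ℝ} : f x < f y ↔ x < y := f.smono.lt_iff_lt
theorem le_iff (f : G) {x y : ℝ} : f x ≤ f y ↔ x ≤ y := f.smono.le_iff_le
theorem inj (f : G) {x y : ℝ} : f x = f y ↔ x = y := f.smono.injective.eq_iff

theorem ra (f : G) (x : ℝ) : RA f x := (f.pl x).1
theorem la (f : G) (x : ℝ) : LA f x := (f.pl x).2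

theorem ra_pos (f : G) (x : ℝ) : ∃ a δ : ℝ, 0 < a ∧ 0 < δ ∧
    ∀ t, x ≤ t → t ≤ x + δ → f t = f x + a * (t - x) := by
  obtain ⟨a, δ, hδ, H⟩ := f.ra x
  refine ⟨a, δ, ?_, hδ, H⟩
  have h1 := H (x + δ) (by linarith) le_rfl
  have h2 : f x < f (x + δ) := f.lt_iff.2 (by linarith)
  rw [h1] at h2
  have h3 : 0 < a * (x + δ - x) := by linarith
  have h4 : a * (x + δ - x) = a * δ := by ring
  rw [h4] at h3
  exact pos_of_mul_pos_left h3 hδ.le

theorem la_pos (f : G) (x : ℝ) : ∃ a δ : ℝ, 0 < a ∧ 0 < δ ∧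
    ∀ t, x - δ ≤ t → t ≤ x → f t = f x + a * (t - x) := by
  obtain ⟨a, δ, hδ, H⟩ := f.la x
  refine ⟨a, δ, ?_, hδ, H⟩
  have h1 := H (x - δ) le_rfl (by linarith)
  have h2 : f (x - δ) < f x := f.lt_iff.2 (by linarith)
  rw [h1] at h2
  have h4 : a * (x - δ - x) = - (a * δ) := by ring
  rw [h4] at h2
  have h3 : 0 < a * δ := by linarith
  exact pos_of_mul_pos_left h3 hδ.le

/-- constructor from a strictly monotone surjection -/
noncomputable def mk' (f : ℝ → ℝ) (hm : StrictMono f) (hs : Function.Surjective f)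
    (hp : ∀ x, RA f x ∧ LA f x) : G where
  e := StrictMono.orderIsoOfSurjective f hm hs
  pl := by
    intro x
    simpa using hp x

@[simp] theorem mk'_apply (f : ℝ → ℝ) (hm : StrictMono f) (hs : Function.Surjective f)
    (hp : ∀ x, RA f x ∧ LA f x) (x : ℝ) : mk' f hm hs hp x = f x := rfl

instance : One G := ⟨⟨OrderIso.refl ℝ, fun x =>
  ⟨⟨1, 1, one_pos, fun t _ _ => by simp⟩, ⟨1, 1, one_pos, fun t _ _ => by simp⟩⟩⟩⟩

theorem mul_pl (f g : G) (x : ℝ) : RA (fun t => f (g t)) x ∧ LA (fun t => f (g t)) x := by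
  constructor
  · obtain ⟨a, δ, ha, hδ, H⟩ := g.ra_pos x
    obtain ⟨b, e, hb, he, K⟩ := f.ra_pos (g x)
    refine ⟨b * a, min δ (e / a), lt_min hδ (by positivity), fun t h1 h2 => ?_⟩
    have h3 : t ≤ x + δ := h2.trans (by linarith [min_le_left δ (e / a)])
    have h4 : t ≤ x + e / a := h2.trans (by linarith [min_le_right δ (e / a)])
    have h5 := H t h1 h3
    have h6 : a * (t - x) ≤ e := by
      have : t - x ≤ e / a := by linarith
      calc a * (t - x) ≤ a * (e / a) := mul_le_mul_of_nonneg_left this ha.le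
        _ = e := by field_simp
    have h7 := K (g t) (g.le_iff.2 h1) (by rw [h5]; linarith)
    simp only
    rw [h7, h5]; ring
  · obtain ⟨a, δ, ha, hδ, H⟩ := g.la_pos x
    obtain ⟨b, e, hb, he, K⟩ := f.la_pos (g x)
    refine ⟨b * a, min δ (e / a), lt_min hδ (by positivity), fun t h1 h2 => ?_⟩
    have h3 : x - δ ≤ t := le_trans (by linarith [min_le_left δ (e / a)]) h1
    have h4 : x - e / a ≤ t := le_trans (by linarith [min_le_right δ (e / a)]) h1
    have h5 := H t h3 h2
    have h6 : -e ≤ a * (t - x) := by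
      have : x - t ≤ e / a := by linarith
      have h8 : a * (x - t) ≤ a * (e / a) := mul_le_mul_of_nonneg_left this ha.le
      have h9 : a * (e / a) = e := by field_simp
      nlinarith
    have h7 := K (g t) (by rw [h5]; linarith) (g.le_iff.2 h2)
    simp only
    rw [h7, h5]; ring

instance : Mul G := ⟨fun f g => ⟨g.e.trans f.e, fun x => mul_pl f g x⟩⟩

theorem inv_pl (f : G) (y : ℝ) : RA f.e.symm y ∧ LA f.e.symm y := by
  obtain ⟨x, rfl⟩ := f.e.surjective y
  constructor
  · obtain ⟨a, δ, ha, hδ, H⟩ := f.ra_pos x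
    refine ⟨1 / a, a * δ, by positivity, fun t h1 h2 => ?_⟩
    rw [OrderIso.symm_apply_apply]
    have h3 : f (x + 1 / a * (t - f x)) = t := by
      rw [H]
      · field_simp; ring
      · have : 0 ≤ 1 / a * (t - f x) := mul_nonneg (by positivity) (by
          have : f.e x = f x := rfl
          linarith)
        linarith
      · have h4 : t - f x ≤ a * δ := by
          have : f.e x = f x := rfl
          linarith
        have : 1 / a * (t - f x) ≤ 1 / a * (a * δ) := mul_le_mul_of_nonneg_left h4 (by positivity)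
        have h5 : 1 / a * (a * δ) = δ := by field_simp
        linarith
    rw [← h3]
    change f.e.symm (f.e _) = _
    rw [OrderIso.symm_apply_apply]
    change _ = x + 1 / a * (f _ - f x)
    rw [h3]
  · obtain ⟨a, δ, ha, hδ, H⟩ := f.la_pos x
    refine ⟨1 / a, a * δ, by positivity, fun t h1 h2 => ?_⟩
    rw [OrderIso.symm_apply_apply]
    have h3 : f (x + 1 / a * (t - f x)) = t := by
      rw [H]
      · field_simp; ring
      · have h4 : f x - t ≤ a * δ := by
          have : f.e x = f x := rfl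
          linarith
        have : 1 / a * (f x - t) ≤ 1 / a * (a * δ) := mul_le_mul_of_nonneg_left h4 (by positivity)
        have h5 : 1 / a * (a * δ) = δ := by field_simp
        linarith
      · have : 0 ≤ 1 / a * (f x - t) := mul_nonneg (by positivity) (by
          have : f.e x = f x := rfl
          linarith)
        linarith
    rw [← h3]
    change f.e.symm (f.e _) = _
    rw [OrderIso.symm_apply_apply]
    change _ = x + 1 / a * (f _ - f x)
    rw [h3]

instance : Inv G := ⟨fun f => ⟨f.e.symm, fun x => inv_pl f x⟩⟩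

@[simp] theorem one_apply (x : ℝ) : (1 : G) x = x := rfl
@[simp] theorem mul_apply (f g : G) (x : ℝ) : (f * g) x = f (g x) := rfl
@[simp] theorem inv_apply_self (f : G) (x : ℝ) : f⁻¹ (f x) = x := f.e.symm_apply_apply x
@[simp] theorem apply_inv_self (f : G) (x : ℝ) : f (f⁻¹ x) = x := f.e.apply_symm_apply x

instance : Group G where
  mul_assoc _ _ _ := rfl
  one_mul _ := rfl
  mul_one _ := rfl
  inv_mul_cancel f := by ext x; simp

theorem inv_eq_iff (f : G) {x y : ℝ} : f⁻¹ y = x ↔ y = f x := by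
  constructor
  · rintro rfl; simp
  · rintro rfl; simp

theorem inv_lt_iff (f : G) {x y : ℝ} : f⁻¹ y < x ↔ y < f x := by
  rw [← f.lt_iff, apply_inv_self]
theorem inv_le_iff (f : G) {x y : ℝ} : f⁻¹ y ≤ x ↔ y ≤ f x := by
  rw [← f.le_iff, apply_inv_self]
theorem lt_inv_iff (f : G) {x y : ℝ} : x < f⁻¹ y ↔ f x < y := by
  rw [← f.lt_iff, apply_inv_self]
theorem le_inv_iff (f : G) {x y : ℝ} : x ≤ f⁻¹ y ↔ f x ≤ y := by
  rw [← f.le_iff, apply_inv_self]

theorem inv_fix (f : G) {x : ℝ} (h : f x = x) : f⁻¹ x = x := (f.inv_eq_iff).2 h.symm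

theorem pow_succ_apply (f : G) (n : ℕ) (x : ℝ) : (f ^ (n + 1)) x = f ((f ^ n) x) := by
  rw [pow_succ']; rfl
theorem pow_succ_apply' (f : G) (n : ℕ) (x : ℝ) : (f ^ (n + 1)) x = (f ^ n) (f x) := by
  rw [pow_succ]; rfl

theorem pow_fix (f : G) {x : ℝ} (h : f x = x) (n : ℕ) : (f ^ n) x = x := by
  induction n with
  | zero => rfl
  | succ n ih => rw [pow_succ_apply, ih, h]

/-- the affine map -/
noncomputable def aff (a b : ℝ) (ha : 0 < a) : G := mk' (fun x => a * x + b)
  (fun x y h => by have := mul_lt_mul_of_pos_left h ha; simp only; linarith)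
  (fun y => ⟨(y - b) / a, by field_simp; ring⟩)
  (fun x => ⟨⟨a, 1, one_pos, fun t _ _ => by ring⟩, ⟨a, 1, one_pos, fun t _ _ => by ring⟩⟩)

@[simp] theorem aff_apply (a b : ℝ) (ha : 0 < a) (x : ℝ) : aff a b ha x = a * x + b := rfl

/-- the translation -/
noncomputable def tr (t : ℝ) : G := aff 1 t one_pos

@[simp] theorem tr_apply (t x : ℝ) : tr t x = x + t := by simp [tr]

theorem tr_add (s t : ℝ) : tr (s + t) = tr s * tr t := by ext x; simp; ring
@[simp] theorem tr_zero : tr 0 = 1 := by ext x; simp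
theorem tr_neg (t : ℝ) : tr (-t) = (tr t)⁻¹ := by
  rw [eq_inv_iff_mul_eq_one, ← tr_add]; simp
@[simp] theorem tr_inv_apply (t x : ℝ) : (tr t)⁻¹ x = x - t := by
  rw [← tr_neg]; simp; ring
theorem tr_pow (t : ℝ) (n : ℕ) : (tr t) ^ n = tr (n * t) := by
  induction n with
  | zero => simp
  | succ n ih => rw [pow_succ, ih, ← tr_add]; congr 1; push_cast; ring
theorem tr_zpow (t : ℝ) (n : ℤ) : (tr t) ^ n = tr (n * t) := by
  cases n with
  | ofNat n => simp [tr_pow]
  | negSucc n =>
    rw [zpow_negSucc, tr_pow, ← tr_neg]; congr 1; push_cast; ring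

/-- gluing at a point where the values agree -/
noncomputable def glue (f g : G) (c : ℝ) (h : f c = g c) : G :=
  mk' (fun x => if x ≤ c then f x else g x)
  (by
    intro x y hxy
    simp only
    by_cases hy : y ≤ c
    · rw [if_pos (hxy.le.trans hy), if_pos hy]; exact f.lt_iff.2 hxy
    · by_cases hx : x ≤ c
      · rw [if_pos hx, if_neg hy]
        push Not at hy
        calc f x ≤ f c := f.le_iff.2 hx
          _ = g c := h
          _ < g y := g.lt_iff.2 hy
      · rw [if_neg hx, if_neg hy]; exact g.lt_iff.2 hxy)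
  (by
    intro y
    by_cases hy : y ≤ f c
    · refine ⟨f⁻¹ y, ?_⟩
      simp only
      rw [if_pos (f.inv_le_iff.2 hy)]; simp
    · refine ⟨g⁻¹ y, ?_⟩
      push Not at hy
      simp only
      rw [if_neg]; · simp
      push Not
      rw [g.lt_inv_iff, ← h]; exact hy)
  (by
    intro x
    rcases lt_trichotomy x c with hx | hx | hx
    · refine ⟨(f.ra x).congr (e := c - x) (by linarith) ?_, (f.la x).congr (e := 1) one_pos ?_⟩
      · intro t _ h2; rw [if_pos (by linarith)]
      · intro t _ h2; rw [if_pos (by linarith)]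
    · subst hx
      refine ⟨(g.ra x).congr (e := 1) one_pos ?_, (f.la x).congr (e := 1) one_pos ?_⟩
      · intro t h1 h2
        rcases h1.eq_or_lt with rfl | h1
        · rw [if_pos le_rfl]; exact h
        · rw [if_neg (by push Not; exact h1)]
      · intro t _ h2; rw [if_pos h2]
    · refine ⟨(g.ra x).congr (e := 1) one_pos ?_, (g.la x).congr (e := (x - c) / 2)
        (by linarith) ?_⟩
      · intro t h1 h2; rw [if_neg (by push Not; linarith)]
      · intro t h1 h2; rw [if_neg (by push Not; linarith)])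

theorem glue_le {f g : G} {c : ℝ} {h : f c = g c} {x : ℝ} (hx : x ≤ c) :
    glue f g c h x = f x := by
  change (if x ≤ c then f x else g x) = f x
  rw [if_pos hx]

theorem glue_ge {f g : G} {c : ℝ} {h : f c = g c} {x : ℝ} (hx : c ≤ x) :
    glue f g c h x = g x := by
  change (if x ≤ c then f x else g x) = g x
  rcases hx.eq_or_lt with rfl | hx
  · rw [if_pos le_rfl, h]
  · rw [if_neg (by push Not; exact hx)]

/-- reflection in the point 15, a group automorphism -/
noncomputable def rf (f : G) : G := mk' (fun x => 30 - f (30 - x))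
  (fun x y h => by
    have := f.lt_iff.2 (show 30 - y < 30 - x by linarith)
    simp only; linarith)
  (fun y => ⟨30 - f⁻¹ (30 - y), by simp⟩)
  (by
    intro x
    constructor
    · obtain ⟨a, δ, hδ, H⟩ := f.la (30 - x)
      refine ⟨a, δ, hδ, fun t h1 h2 => ?_⟩
      beta_reduce
      rw [H (30 - t) (by linarith) (by linarith)]; ring
    · obtain ⟨a, δ, hδ, H⟩ := f.ra (30 - x)
      refine ⟨a, δ, hδ, fun t h1 h2 => ?_⟩
      beta_reduce
      rw [H (30 - t) (by linarith) (by linarith)]; ring)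

@[simp] theorem rf_apply (f : G) (x : ℝ) : rf f x = 30 - f (30 - x) := rfl

theorem rf_mul (f g : G) : rf (f * g) = rf f * rf g := by ext x; simp
theorem rf_one : rf 1 = 1 := by ext x; simp
theorem rf_inv (f : G) : rf f⁻¹ = (rf f)⁻¹ := by
  rw [eq_inv_iff_mul_eq_one, ← rf_mul]; simp [rf_one]
theorem rf_rf (f : G) : rf (rf f) = f := by ext x; simp
theorem rf_tr (t : ℝ) : rf (tr t) = tr (-t) := by ext x; simp; ring

end G

end Pool.Agent.Helper237
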