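import Pool.Agent.Helper237.Model2

namespace Pool.Agent.Helper237

open Set Filter Topology

namespace G

/-- shift by a multiple of the period -/
noncomputable def sh (k : ℕ) (W : G) : G := tr (66 * k) * W * (tr (66 * k))⁻¹

theorem sh_apply (k : ℕ) (W : G) (x : ℝ) : sh k W x = W (x - 66 * k) + 66 * k := by
  simp [sh]

theorem E_comm_tr (k : ℕ) : E * tr (66 * k) = tr (66 * k) * E := by
  ext x; simpa using E_addk k x

theorem cm_sh (k : ℕ) (W : G) : cm (sh k W) = sh k (cm W) := by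
  unfold cm sh
  have h := E_comm_tr k
  set t := tr (66 * k)
  have h1 : E = t * E * t⁻¹ := by rw [← h]; group
  have h2 : E⁻¹ = t * E⁻¹ * t⁻¹ := by
    conv_lhs => rw [h1]
    group
  calc (t * W * t⁻¹)⁻¹ * E * (t * W * t⁻¹) * E⁻¹
      = (t * W * t⁻¹)⁻¹ * (t * E * t⁻¹) * (t * W * t⁻¹) * (t * E⁻¹ * t⁻¹) := by
        rw [← h1, ← h2]
    _ = _ := by group

theorem Einv_node (K : ℕ) : E⁻¹ (48 + 66 * K) = 48 + 66 * K - 6 := by
  have := Einv_addk K 48
  push_cast at this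
  rw [this, Einv48]; ring

theorem E_node (K : ℕ) : E (48 + 66 * K - 6) = 48 + 66 * K := by
  rw [← Einv_node, apply_inv_self]

theorem cut_le {W W1 : G} {c y : ℝ} (hE : E (c - 6) = c) (hW : ∀ x, x ≤ c → W x = W1 x)
    (h1 : W1 (c - 6) = c - 6) (h2 : W1 c = c) (hy : y ≤ c) : cm W y = cm W1 y := by
  have e1 : E⁻¹ y ≤ c - 6 := by rw [inv_le_iff, hE]; exact hy
  refine cm_congr_le hW (by linarith) ?_
  rw [h2]
  calc E (W1 (E⁻¹ y)) ≤ E (W1 (c - 6)) := E.le_iff.2 (W1.le_iff.2 e1)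
    _ = c := by rw [h1, hE]

theorem cut_ge {W W2 : G} {c y : ℝ} (hE : E (c - 6) = c) (hW : ∀ x, c - 6 ≤ x → W x = W2 x)
    (h1 : W2 (c - 6) = c - 6) (hy : c ≤ y) : cm W y = cm W2 y := by
  have e1 : c - 6 ≤ E⁻¹ y := by rw [le_inv_iff, hE]; exact hy
  refine cm_congr_ge hW e1 ?_
  have e2 : c - 6 ≤ W2 (E⁻¹ y) := by
    rw [← W2.le_iff, h1] at e1; exact e1
  have e3 := (E.le_iff).2 e2
  rw [hE] at e3
  rw [h1]
  linarith

theorem cm_fix_node {W : G} {c : ℝ} (hE : E (c - 6) = c) (h1 : W (c - 6) = c - 6)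
    (h2 : W c = c) : cm W c = c := by
  rw [cm_apply, (inv_eq_iff _).2 hE.symm, h1, hE, inv_eq_iff, h2]

/-- compact block -/
def CB (f : G) (p q : ℝ) (K : ℕ) (Φ W : G) : Prop :=
  1 ≤ K ∧ Φ p = 48 ∧ Φ q = 48 + 66 * K ∧ (∀ x, x ≤ 48 → W x = x) ∧
    (∀ x, 42 + 66 * (K : ℝ) ≤ x → W x = x) ∧ ∀ x, p ≤ x → x ≤ q → Φ (f x) = cm W (Φ x)

/-- upper block -/
def HB (f : G) (p : ℝ) (Φ W : G) : Prop :=
  Φ p = 48 ∧ (∀ x, x ≤ 48 → W x = x) ∧ ∀ x, p ≤ x → Φ (f x) = cm W (Φ x)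

/-- lower block -/
def LB (f : G) (q : ℝ) (Φ W : G) : Prop :=
  Φ q = 48 ∧ (∀ x, 42 ≤ x → W x = x) ∧ ∀ x, x ≤ q → Φ (f x) = cm W (Φ x)

theorem CB.join {f : G} {p q r : ℝ} {K L : ℕ} {Φ W Φ' W' : G} (h : CB f p q K Φ W)
    (h' : CB f q r L Φ' W') (hq : f q = q) (hpq : p ≤ q) (hqr : q ≤ r) :
    ∃ Φ₂ W₂, CB f p r (K + L) Φ₂ W₂ ∧ (∀ x, x ≤ q → Φ₂ x = Φ x) ∧
      (∀ x, x ≤ 48 + 66 * (K : ℝ) → W₂ x = W x) := by
  obtain ⟨hK, a1, a2, a3, a4, a5⟩ := h
  obtain ⟨hL, b1, b2, b3, b4, b5⟩ := h'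
  have hK' : (1 : ℝ) ≤ K := by exact_mod_cast hK
  have hL' : (1 : ℝ) ≤ L := by exact_mod_cast hL
  have g1 : Φ q = (tr (66 * K) * Φ') q := by rw [mul_apply, b1, a2, tr_apply]
  have g2 : W (48 + 66 * K) = (sh K W') (48 + 66 * K) := by
    rw [a4 _ (by linarith), sh_apply, b3 _ (by linarith)]; ring
  refine ⟨glue Φ (tr (66 * K) * Φ') q g1, glue W (sh K W') (48 + 66 * K) g2,
    ⟨by lia, ?_, ?_, ?_, ?_, ?_⟩, fun x hx => glue_le hx, fun x hx => glue_le hx⟩
  · rw [glue_le hpq, a1]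
  · rw [glue_ge hqr, mul_apply, b2, tr_apply]; push_cast; ring
  · intro x hx
    rw [glue_le (by linarith), a3 x hx]
  · intro x hx
    push_cast at hx
    rw [glue_ge (by linarith), sh_apply, b4 _ (by linarith)]; ring
  · intro x hx1 hx2
    rcases le_total x q with h | h
    · have hfx : f x ≤ q := by rw [← hq, f.le_iff]; exact h
      rw [glue_le hfx, glue_le h, a5 x hx1 h]
      symm
      refine cut_le (c := 48 + 66 * K) (E_node K) (fun x hx => glue_le hx)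
        (a4 _ (by linarith)) (a4 _ (by linarith)) ?_
      rw [← a2, Φ.le_iff]; exact h
    · have hfx : q ≤ f x := by
        calc q = f q := hq.symm
          _ ≤ f x := f.le_iff.2 h
      rw [glue_ge hfx, glue_ge h, mul_apply, b5 x h hx2]
      have e1 : cm (glue W (sh K W') (48 + 66 * K) g2) ((tr (66 * K) * Φ') x) =
          cm (sh K W') ((tr (66 * K) * Φ') x) := by
        refine cut_ge (c := 48 + 66 * K) (E_node K) ?_ ?_ ?_
        · intro t ht
          rcases le_total t (48 + 66 * K) with h3 | h3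
          · rw [glue_le h3, a4 _ (by linarith), sh_apply, b3 _ (by linarith)]; ring
          · rw [glue_ge h3]
        · rw [sh_apply, b3 _ (by linarith)]; ring
        · rw [mul_apply, tr_apply]
          have : Φ' q ≤ Φ' x := Φ'.le_iff.2 h
          rw [b1] at this
          linarith
      rw [e1, cm_sh, mul_apply, sh_apply]
      simp

theorem CB.joinH {f : G} {p q : ℝ} {K : ℕ} {Φ W Φ' W' : G} (h : CB f p q K Φ W)
    (h' : HB f q Φ' W') (hq : f q = q) (hpq : p ≤ q) :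
    ∃ Φ₂ W₂, HB f p Φ₂ W₂ := by
  obtain ⟨hK, a1, a2, a3, a4, a5⟩ := h
  obtain ⟨b1, b3, b5⟩ := h'
  have hK' : (1 : ℝ) ≤ K := by exact_mod_cast hK
  have g1 : Φ q = (tr (66 * K) * Φ') q := by rw [mul_apply, b1, a2, tr_apply]
  have g2 : W (48 + 66 * K) = (sh K W') (48 + 66 * K) := by
    rw [a4 _ (by linarith), sh_apply, b3 _ (by linarith)]; ring
  refine ⟨glue Φ (tr (66 * K) * Φ') q g1, glue W (sh K W') (48 + 66 * K) g2,
    ?_, ?_, ?_⟩
  · rw [glue_le hpq, a1]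
  · intro x hx
    rw [glue_le (by linarith), a3 x hx]
  · intro x hx1
    rcases le_total x q with h | h
    · have hfx : f x ≤ q := by rw [← hq, f.le_iff]; exact h
      rw [glue_le hfx, glue_le h, a5 x hx1 h]
      symm
      refine cut_le (c := 48 + 66 * K) (E_node K) (fun x hx => glue_le hx)
        (a4 _ (by linarith)) (a4 _ (by linarith)) ?_
      rw [← a2, Φ.le_iff]; exact h
    · have hfx : q ≤ f x := by
        calc q = f q := hq.symm
          _ ≤ f x := f.le_iff.2 h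
      rw [glue_ge hfx, glue_ge h, mul_apply, b5 x h]
      have e1 : cm (glue W (sh K W') (48 + 66 * K) g2) ((tr (66 * K) * Φ') x) =
          cm (sh K W') ((tr (66 * K) * Φ') x) := by
        refine cut_ge (c := 48 + 66 * K) (E_node K) ?_ ?_ ?_
        · intro t ht
          rcases le_total t (48 + 66 * K) with h3 | h3
          · rw [glue_le h3, a4 _ (by linarith), sh_apply, b3 _ (by linarith)]; ring
          · rw [glue_ge h3]
        · rw [sh_apply, b3 _ (by linarith)]; ring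
        · rw [mul_apply, tr_apply]
          have : Φ' q ≤ Φ' x := Φ'.le_iff.2 h
          rw [b1] at this
          linarith
      rw [e1, cm_sh, mul_apply, sh_apply]
      simp

theorem E42 : E (48 - 6) = 48 := by
  have := E_node 0
  simpa using this

theorem LB.joinH {f : G} {q : ℝ} {Φ W Φ' W' : G} (h : LB f q Φ W)
    (h' : HB f q Φ' W') (hq : f q = q) :
    ∃ Φ₂ W₂ : G, Φ₂ * f = cm W₂ * Φ₂ := by
  obtain ⟨a1, a4, a5⟩ := h
  obtain ⟨b1, b3, b5⟩ := h'
  have g1 : Φ q = Φ' q := by rw [b1, a1]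
  have g2 : W 48 = W' 48 := by
    rw [a4 _ (by linarith), b3 _ (by linarith)]
  refine ⟨glue Φ Φ' q g1, glue W W' 48 g2, ?_⟩
  ext x
  rw [mul_apply, mul_apply]
  rcases le_total x q with h | h
  · have hfx : f x ≤ q := by rw [← hq, f.le_iff]; exact h
    rw [glue_le hfx, glue_le h, a5 x h]
    symm
    refine cut_le (c := 48) E42 (fun x hx => glue_le hx)
      (a4 _ (by linarith)) (a4 _ (by linarith)) ?_
    rw [← a1, Φ.le_iff]; exact h
  · have hfx : q ≤ f x := by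
      calc q = f q := hq.symm
        _ ≤ f x := f.le_iff.2 h
    rw [glue_ge hfx, glue_ge h, b5 x h]
    symm
    refine cut_ge (c := 48) E42 ?_ ?_ ?_
    · intro t ht
      rcases le_total t 48 with h3 | h3
      · rw [glue_le h3, a4 _ (by linarith), b3 _ (by linarith)]
      · rw [glue_ge h3]
    · rw [b3 _ (by linarith)]
    · have : Φ' q ≤ Φ' x := Φ'.le_iff.2 h
      rw [b1] at this
      exact this

theorem inv_rel {f Φ W : G} {x : ℝ} (h : Φ (f (f⁻¹ x)) = cm W (Φ (f⁻¹ x))) :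
    (W * Φ) (f⁻¹ x) = cm W⁻¹ ((W * Φ) x) := by
  rw [apply_inv_self] at h
  rw [mul_apply, mul_apply, h]
  unfold cm
  simp

theorem CB.inv {f : G} {p q : ℝ} {K : ℕ} {Φ W : G} (h : CB f p q K Φ W)
    (hp : f p = p) (hq : f q = q) : CB f⁻¹ p q K (W * Φ) W⁻¹ := by
  obtain ⟨hK, a1, a2, a3, a4, a5⟩ := h
  refine ⟨hK, ?_, ?_, ?_, ?_, ?_⟩
  · rw [mul_apply, a1, a3 _ le_rfl]
  · rw [mul_apply, a2, a4 _ (by linarith)]
  · intro x hx; exact inv_fix _ (a3 x hx)
  · intro x hx; exact inv_fix _ (a4 x hx)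
  · intro x hx1 hx2
    refine inv_rel (a5 _ ?_ ?_)
    · rw [le_inv_iff, hp]; exact hx1
    · rw [inv_le_iff, hq]; exact hx2

theorem HB.inv {f : G} {p : ℝ} {Φ W : G} (h : HB f p Φ W)
    (hp : f p = p) : HB f⁻¹ p (W * Φ) W⁻¹ := by
  obtain ⟨a1, a3, a5⟩ := h
  refine ⟨?_, ?_, ?_⟩
  · rw [mul_apply, a1, a3 _ le_rfl]
  · intro x hx; exact inv_fix _ (a3 x hx)
  · intro x hx1
    refine inv_rel (a5 _ ?_)
    rw [le_inv_iff, hp]; exact hx1

theorem HB.reflect {f : G} {q : ℝ} {Φ W : G} (h : HB (rf f⁻¹) (30 - q) Φ W) (hq : f q = q) :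
    ∃ Φ₂ W₂, LB f q Φ₂ W₂ := by
  obtain ⟨a1, a3, a5⟩ := h
  refine ⟨tr 66 * rf Φ, tr 66 * E⁻¹ * rf W * E * tr (-66), ?_, ?_, ?_⟩
  · rw [mul_apply, rf_apply, a1, tr_apply]; norm_num
  · intro x hx
    have e1 : E (-24) = -18 := by
      have := E_add (-24)
      rw [E_c (by norm_num) (by norm_num)] at this
      linarith
    have e2 : -18 ≤ E (tr (-66) x) := by
      rw [← e1, E.le_iff, tr_apply]; linarith
    simp only [mul_apply]
    rw [rf_apply, a3 _ (by linarith)]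
    simp
  · intro x hx
    rw [cm_conj_general]
    have key := a5 (30 - f x) (by
      have := f.le_iff.2 hx
      rw [hq] at this
      linarith)
    rw [rf_apply, sub_sub_cancel, inv_apply_self] at key
    simp only [mul_apply]
    congr 1
    symm
    rw [inv_eq_iff]
    simp only [rf_apply, tr_apply]
    rw [sub_sub_cancel, ← key]
    ring

end G

end Pool.Agent.Helper237
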