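import Pool.Agent.Helper237.Perfect

namespace Pool.Agent.Helper237

open Set Filter Topology

namespace G

theorem exists_W (n : ℝ) (h0 : 0 < n) (h1 : n < 1) (μ : ℝ) (m0 : 0 < μ) (m1 : μ < 1)
    (Ξ U : G) (K : ℕ) (hK : 1 ≤ K) (hΞ : ∀ x, x ≤ 80 → Ξ x = x) (hU : ∀ x, x ≤ 80 → U x = x)
    (hU' : ∀ x, 66 * (K : ℝ) + 17 ≤ x → U x = x)
    (hrel : Ξ * tr 1 * Ξ⁻¹ = U * tr 1 * E * U⁻¹ * E⁻¹) :
    ∃ W : G, (∀ x, x ≤ 48 → W x = x) ∧ (∀ x, 42 + 66 * (K : ℝ) ≤ x → W x = x) ∧
      (∀ y, y ≤ 66 * (K : ℝ) + 30 → cm W y = Ξ (cm (We n h0 h1) (Ξ⁻¹ y))) ∧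
      (∀ y, 66 * (K : ℝ) + 16 ≤ y → cm W y = cm (Wx μ m0 m1) (y - 66 * K) + 66 * K) := by
  have hK' : (1 : ℝ) ≤ K := by exact_mod_cast hK
  have w80 : We n h0 h1 80 = 78 := by
    rw [We_d (by norm_num), WT_b (by norm_num) (by norm_num)]; norm_num
  have v80 : (WT * U⁻¹) 80 = 78 := by
    rw [mul_apply, inv_fix _ (hU 80 le_rfl), WT_b (by norm_num) (by norm_num)]; norm_num
  have g1 : We n h0 h1 80 = (WT * U⁻¹) 80 := by rw [w80, v80]
  have WTk : WT (66 * K + 17) = 66 * K + 18 := by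
    have := addk WT_add K 17
    push_cast at this
    rw [add_comm, this, WT_a (by norm_num) (by norm_num)]; ring
  have e1 : (glue (We n h0 h1) (WT * U⁻¹) 80 g1) (66 * K + 17) = 66 * K + 18 := by
    rw [glue_ge (by linarith), mul_apply, inv_fix _ (hU' _ le_rfl), WTk]
  have e2 : (sh K (Wx μ m0 m1)) (66 * K + 17) = 66 * K + 18 := by
    rw [sh_apply, add_sub_cancel_left, Wx_17]; ring
  have g2 : (glue (We n h0 h1) (WT * U⁻¹) 80 g1) (66 * K + 17) =
      (sh K (Wx μ m0 m1)) (66 * K + 17) := by rw [e1, e2]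
  have E18k : E (66 * K + 18) = 66 * K + 18 := by
    have := E_addk K 18
    push_cast at this
    rw [add_comm, this, E18]
  set W1 := glue (We n h0 h1) (WT * U⁻¹) 80 g1 with hW1
  have B : ∀ y, 66 * (K : ℝ) + 16 ≤ y →
      cm (glue W1 (sh K (Wx μ m0 m1)) (66 * K + 17) g2) y =
        cm (Wx μ m0 m1) (y - 66 * K) + 66 * K := by
    intro y hy
    have a1 : 66 * (K : ℝ) + 17 ≤ E⁻¹ y := by rw [le_inv_iff, E17K]; exact hy
    rw [cm_congr_ge (W1 := sh K (Wx μ m0 m1)) (c := 66 * K + 17) (fun x hx => glue_ge hx) a1,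
      cm_sh, sh_apply]
    rw [e2, ← E18k, E.le_iff, ← e2, le_iff]
    exact a1
  refine ⟨glue W1 (sh K (Wx μ m0 m1)) (66 * K + 17) g2, ?_, ?_, ?_, B⟩
  · intro x hx
    rw [glue_le (by linarith), hW1, glue_le (by linarith), We_a hx]
  · intro x hx
    rw [glue_ge (by linarith), sh_apply, Wx_ge (by linarith)]; ring
  · intro y hy
    rcases le_total (66 * (K : ℝ) + 16) y with h | h
    · rw [B y h, gx_b (by linarith)]
      have a1 : 80 ≤ Ξ⁻¹ y := by rw [le_inv_iff, hΞ 80 le_rfl]; linarith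
      rw [ge_b (by linarith)]
      have := TB_aux hU' hrel h
      simp only [mul_apply, tr_apply] at this
      rw [this]; ring
    · have a1 : E⁻¹ y ≤ 66 * (K : ℝ) + 17 := by rw [inv_le_iff, E17K]; exact h
      rw [cm_congr_le (W1 := W1) (c := 66 * K + 17) (fun x hx => glue_le hx) a1 (by
        rw [e1]
        calc E (W1 (E⁻¹ y)) ≤ E (W1 (66 * K + 17)) := E.le_iff.2 (W1.le_iff.2 a1)
          _ = 66 * K + 18 := by rw [e1, E18k])]
      rcases le_total y 79 with h' | h'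
      · have a2 : E⁻¹ y ≤ 80 := by
          rw [inv_le_iff, E_a2 (by norm_num) (by norm_num)]; linarith
        rw [cm_congr_le (W1 := We n h0 h1) (c := 80) (fun x hx => glue_le hx) a2 (by
          rw [w80]
          calc E ((We n h0 h1) (E⁻¹ y)) ≤ E ((We n h0 h1) 80) :=
              E.le_iff.2 ((We n h0 h1).le_iff.2 a2)
            _ = 78 := by rw [w80, E78])]
        rw [inv_fix _ (hΞ y (by linarith))]
        have a3 : cm (We n h0 h1) y ≤ cm (We n h0 h1) 79 := (cm (We n h0 h1)).le_iff.2 h'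
        rw [ge_b (x := 79) (by norm_num)] at a3
        rw [hΞ _ (by linarith)]
      · have a2 : 80 ≤ E⁻¹ y := by
          rw [le_inv_iff, E_a2 (by norm_num) (by norm_num)]; linarith
        rw [cm_congr_ge (W1 := WT * U⁻¹) (c := 80) (fun x hx => glue_ge hx) a2 (by
          rw [v80]
          calc 78 = E ((WT * U⁻¹) 80) := by rw [v80, E78]
            _ ≤ E ((WT * U⁻¹) (E⁻¹ y)) := E.le_iff.2 ((WT * U⁻¹).le_iff.2 a2))]
        have a4 : cm (WT * U⁻¹) = Ξ * tr 1 * Ξ⁻¹ := by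
          rw [hrel]
          have a5 := cm_WT
          unfold cm at a5 ⊢
          have a6 : WT⁻¹ * E * WT = tr 1 * E := by
            rw [← a5]; group
          calc (WT * U⁻¹)⁻¹ * E * (WT * U⁻¹) * E⁻¹ = U * (WT⁻¹ * E * WT) * U⁻¹ * E⁻¹ := by group
            _ = _ := by rw [a6]; group
        rw [a4]
        simp only [mul_apply, tr_apply]
        have a7 : 79 ≤ Ξ⁻¹ y := by rw [le_inv_iff, hΞ 79 (by norm_num)]; exact h'
        rw [ge_b (by linarith)]

theorem exists_exit (f : G) (z q μ ε : ℝ) (hzq : z < q) (hq : f q = q) (hε : 0 < ε)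
    (hf : ∀ x, z ≤ x → x < q → x < f x) (m0 : 0 < μ) (m1 : μ < 1)
    (hloc : ∀ t, q - ε ≤ t → t ≤ q → f t = q + μ * (t - q)) :
    ∃ Φ : G, Φ z = 30 ∧ Φ q = 48 ∧ ∀ x, z ≤ x → x ≤ q → Φ (f x) = cm (Wx μ m0 m1) (Φ x) := by
  set h := cm (Wx μ m0 m1) with hh
  obtain ⟨na, hna⟩ := f.orb z (q - ε) (fun x hx hx' => hf x hx (by linarith))
  obtain ⟨nb, hnb⟩ := h.orb 30 47 (fun x hx hx' => gx_c (by linarith))
  set n1 := max na nb with hn1
  have ha : q - ε < (f ^ n1) z :=
    hna.trans_le (pow_mono_of_lt f (hf z le_rfl hzq).le (le_max_left na nb))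
  have hb : 47 < (h ^ n1) 30 :=
    hnb.trans_le (pow_mono_of_lt h (gx_c (by norm_num)).le (le_max_right na nb))
  have h48 : h 48 = 48 := gx_a le_rfl
  have ha' : (f ^ n1) z < q := by
    conv_rhs => rw [← pow_fix f hq n1]
    rw [lt_iff]; exact hzq
  have hb' : (h ^ n1) 30 < 48 := by
    conv_rhs => rw [← pow_fix h h48 n1]
    rw [lt_iff]; norm_num
  set a := (f ^ n1) z with hadef
  set b := (h ^ n1) 30 with hbdef
  have hσ : 0 < (48 - b) / (q - a) := div_pos (by linarith) (by linarith)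
  have hqa : q - a ≠ 0 := by linarith
  set σ := (48 - b) / (q - a) with hσd
  set L := aff σ (48 - σ * q) hσ with hL
  have Lap : ∀ t, L t = 48 - σ * (q - t) := by intro t; rw [hL, aff_apply]; ring
  have La : L a = b := by rw [Lap, hσd]; field_simp; ring
  have Lq : L q = 48 := by rw [Lap]; ring
  refine ⟨(h ^ n1)⁻¹ * L * f ^ n1, ?_, ?_, ?_⟩
  · rw [mul_apply, mul_apply, ← hadef, La, inv_eq_iff]
  · rw [mul_apply, mul_apply, pow_fix f hq, Lq, inv_eq_iff, pow_fix h h48]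
  · intro x hx1 hx2
    rw [mul_apply, mul_apply, mul_apply, mul_apply]
    have e1 : (f ^ n1) (f x) = f ((f ^ n1) x) := by
      rw [← pow_succ_apply', pow_succ_apply]
    set w := (f ^ n1) x with hw
    have w1 : a ≤ w := (f ^ n1).le_iff.2 hx1
    have w2 : w ≤ q := by
      conv_rhs => rw [← pow_fix f hq n1]
      rw [hw, le_iff]; exact hx2
    have w3 : b ≤ L w := by rw [← La, L.le_iff]; exact w1
    have w4 : L w ≤ 48 := by rw [← Lq, L.le_iff]; exact w2
    have e2 : L (f w) = h (L w) := by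
      rw [hh, gx_d (by linarith) w4, Lap, Lap, hloc w (by linarith) w2]; ring
    rw [e1, e2, inv_eq_iff, ← pow_succ_apply', pow_succ_apply, apply_inv_self]

theorem bump : BumpStmt := by
  intro f p q hpq hp hq hf
  obtain ⟨ν, δ0, hν0, hδ0, hloc⟩ := f.ra_pos p
  rw [hp] at hloc
  obtain ⟨μ, ε0, hμ0, hε0, hlocq⟩ := f.la_pos q
  rw [hq] at hlocq
  -- slopes
  set δ1 := min δ0 ((q - p) / 2) with hδ1
  have d1 : 0 < δ1 := lt_min hδ0 (by linarith)
  have d2 : δ1 ≤ δ0 := min_le_left _ _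
  have d3 : δ1 ≤ (q - p) / 2 := min_le_right _ _
  have hν : 1 < ν := slope_gt (δ := δ1) d1 (fun t h1 h2 => hloc t h1 (by linarith))
    (hf _ (by linarith) (by linarith))
  set ε := min ε0 ((q - p) / 2) with hε
  have f1 : 0 < ε := lt_min hε0 (by linarith)
  have f2 : ε ≤ ε0 := min_le_left _ _
  have f3 : ε ≤ (q - p) / 2 := min_le_right _ _
  have hμ1 : μ < 1 := by
    have h1 := hf (q - ε) (by linarith) (by linarith)
    rw [hlocq _ (by linarith) (by linarith)] at h1
    by_contra hc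
    push Not at hc
    nlinarith
  have h0 : 0 < 1 / ν := by positivity
  have h1 : 1 / ν < 1 := by rw [div_lt_one hν0]; exact hν
  set δ := min δ1 (1 / ν) with hδ
  have g1 : 0 < δ := lt_min d1 h0
  have g2 : δ ≤ δ1 := min_le_left _ _
  have g3 : δ ≤ 1 / ν := min_le_right _ _
  set g := cm (We (1 / ν) h0 h1) with hg
  obtain ⟨Φ, e1, e2, e3, e4⟩ := ent f p ν δ hν g1 g3 h0 h1
    (fun t ht1 ht2 => hloc t ht1 (by linarith))
  have hfid : ∀ x, p ≤ x → x ≤ q → x ≤ f x := by
    intro x a b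
    rcases a.eq_or_lt with rfl | a
    · exact hp.ge
    rcases b.eq_or_lt with rfl | b
    · exact hq.ge
    exact (hf x a b).le
  have xq : ∀ k : ℕ, (f ^ k) (p + δ) < q := by
    intro k
    conv_rhs => rw [← pow_fix f hq k]
    rw [lt_iff]; linarith
  have xmono : Monotone (fun k : ℕ => (f ^ k) (p + δ)) :=
    pow_mono_of_lt f (hf _ (by linarith) (by linarith)).le
  have stab : ∀ n m t, n ≤ m → t ≤ (f ^ n) (p + δ) → Φ m t = Φ n t := by
    intro n m t hnm ht
    induction m, hnm using Nat.le_induction with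
    | base => rfl
    | succ m hm ih => rw [e2 m t (ht.trans (xmono hm)), ih]
  -- the conjugacy relation for large indices
  have rel : ∀ N t, p ≤ t → g (Φ N t) ≤ (g ^ N) (48 + δ) → Φ N (f t) = g (Φ N t) := by
    intro N t ht hle
    have a1 := e4 N t ht
    rw [← hg] at a1
    have a2 : f t ≤ (f ^ N) (p + δ) := by
      rw [← (Φ (N + 1)).le_iff, a1, e2 N _ le_rfl, e3]; exact hle
    rw [← a1, e2 N _ a2]
  have gub : ∀ B, ∃ n : ℕ, B < (g ^ n) (48 + δ) := fun B =>
    g.orb (48 + δ) B (fun x hx _ => ge_c (by linarith))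
  have gmono : Monotone (fun k : ℕ => (g ^ k) (48 + δ)) :=
    pow_mono_of_lt g (ge_c (by linarith)).le
  have g80 : g 80 = 81 := by rw [hg, ge_b (by norm_num)]; norm_num
  obtain ⟨N0, hN0⟩ := gub 81
  obtain ⟨z, hz⟩ := (Φ N0).surj 80
  have zp : p < z := by
    rw [← (Φ N0).lt_iff, e1, hz]; norm_num
  have zx : z < (f ^ N0) (p + δ) := by
    rw [← (Φ N0).lt_iff, e3, hz]; linarith
  have zq : z < q := zx.trans (xq N0)
  have hfz : Φ N0 (f z) = 81 := by
    rw [rel N0 z zp.le (by rw [hz, g80]; exact hN0.le), hz, g80]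
  -- the exit
  obtain ⟨ΦR, r1, r2, r3⟩ := exists_exit f z q μ ε zq hq f1
    (fun x a b => hf x (by linarith) b) hμ0 hμ1 (fun t a b => hlocq t (by linarith) b)
  set h := cm (Wx μ hμ0 hμ1) with hh
  have r4 : ΦR (f z) = 31 := by
    rw [r3 z le_rfl zq.le, r1, gx_b le_rfl]; norm_num
  -- the twist
  set hh0 := tr (-30) * ΦR * (Φ N0)⁻¹ * tr 80 with hh0d
  have s0 : hh0 0 = 0 := by
    rw [hh0d]
    simp only [mul_apply, tr_apply]
    rw [zero_add, (inv_eq_iff _).2 hz.symm, r1]; norm_num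
  have s1 : hh0 1 = 1 := by
    rw [hh0d]
    simp only [mul_apply, tr_apply]
    rw [show (1 + 80 : ℝ) = 81 by norm_num, (inv_eq_iff _).2 hfz.symm, r4]; norm_num
  obtain ⟨ψ, ps1, ps2⟩ := exists_per hh0 1 0 one_pos (by rw [zero_add, s0, s1, zero_add])
  have psk : ∀ (k : ℤ) x, ψ (x + k) = ψ x + k := by
    intro k x
    have := addk (L := 1) ps2 k x
    rwa [one_mul] at this
  have ps0 : ψ 0 = 0 := by rw [ps1 0 le_rfl (by norm_num), s0]
  obtain ⟨Ξ, U, K, hK, c1, _, c3, c4, c5, c6⟩ := (TB_all ψ ps2 ps0).enlarge 0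
  obtain ⟨W, w1, w2, w3, w4⟩ := exists_W (1 / ν) h0 h1 μ hμ0 hμ1 Ξ U K hK c1 c4 c5 c6
  have hK' : (1 : ℝ) ≤ K := by exact_mod_cast hK
  obtain ⟨M, hM⟩ : ∃ M : ℕ, (M : ℝ) + 51 = 66 * K := by
    refine ⟨66 * K - 51, ?_⟩
    have : 66 * K - 51 + 51 = 66 * K := by lia
    exact_mod_cast this
  -- the large index
  obtain ⟨N1, hN1⟩ := gub (66 * K + 40)
  set N := max N0 N1 with hN
  have hNle : N0 ≤ N := le_max_left _ _
  have hgN : 66 * (K : ℝ) + 40 < (g ^ N) (48 + δ) := hN1.trans_le (gmono (le_max_right N0 N1))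
  set θ := Φ N with hθ
  have θz : ∀ t, t ≤ (f ^ N0) (p + δ) → θ t = Φ N0 t := fun t ht => stab N0 N t hNle ht
  have relθ : ∀ t, p ≤ t → θ t ≤ 66 * (K : ℝ) + 35 → θ (f t) = g (θ t) := by
    intro t ht hle
    refine rel N t ht ?_
    have := g.le_iff.2 hle
    have g3 : g (66 * (K : ℝ) + 35) = 66 * (K : ℝ) + 35 + 1 := ge_b (by linarith)
    rw [g3] at this
    linarith
  have fzx : f z ≤ (f ^ N0) (p + δ) := by
    rw [← (Φ N0).le_iff, hfz, e3]; exact hN0.le
  have fpow : ∀ (j : ℕ) v, z ≤ v → v ≤ f z → (j : ℝ) ≤ M + 1 →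
      θ ((f ^ j) v) = Φ N0 v + j ∧ p ≤ (f ^ j) v := by
    intro j v hv1 hv2
    have b1 : 80 ≤ Φ N0 v := by rw [← hz, le_iff]; exact hv1
    have b2 : Φ N0 v ≤ 81 := by rw [← hfz, le_iff]; exact hv2
    induction j with
    | zero =>
      intro _
      refine ⟨?_, ?_⟩
      · rw [pow_zero, one_apply, θz v (hv2.trans fzx)]; simp
      · rw [pow_zero, one_apply]; linarith
    | succ j ih =>
      intro hj
      push_cast at hj
      obtain ⟨i1, i2⟩ := ih (by linarith)
      have i3 : p ≤ f ((f ^ j) v) := by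
        calc p = f p := hp.symm
          _ ≤ f ((f ^ j) v) := f.le_iff.2 i2
      rw [pow_succ_apply]
      refine ⟨?_, i3⟩
      have hj0 : (0 : ℝ) ≤ j := Nat.cast_nonneg j
      rw [relθ _ i2 (by rw [i1]; linarith), i1, hg, ge_b (by linarith)]
      push_cast; ring
  have zM := fpow (M + 1) z le_rfl (hf z zp zq).le (by push_cast; linarith)
  have glueH : (Ξ * θ) ((f ^ (M + 1)) z) =
      (tr (66 * K) * ΦR * (f ^ (M + 1))⁻¹) ((f ^ (M + 1)) z) := by
    simp only [mul_apply, inv_apply_self, tr_apply]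
    rw [zM.1, hz, r1, c3 _ (by push_cast; linarith)]
    have := psk (66 * K + 30) 0
    push_cast at this
    rw [zero_add, ps0, zero_add] at this
    rw [show (80 : ℝ) + ((M + 1 : ℕ) : ℝ) = 66 * K + 30 by push_cast; linarith, this]; ring
  have zMq : (f ^ (M + 1)) z < q := by
    conv_rhs => rw [← pow_fix f hq (M + 1)]
    rw [lt_iff]; exact zq
  have zMp : p < (f ^ (M + 1)) z := by
    conv_lhs => rw [← pow_fix f hp (M + 1)]
    rw [lt_iff]; exact zp
  have fqinv : (f ^ (M + 1))⁻¹ q = q := inv_fix _ (pow_fix f hq _)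
  refine ⟨K, glue (Ξ * θ) (tr (66 * K) * ΦR * (f ^ (M + 1))⁻¹) ((f ^ (M + 1)) z) glueH, W,
    hK, ?_, ?_, w1, w2, ?_⟩
  · rw [glue_le zMp.le, mul_apply, hθ, e1, c1 _ (by norm_num)]
  · rw [glue_ge zMq.le]
    simp only [mul_apply, tr_apply]
    rw [fqinv, r2]
  · intro x hx1 hx2
    have hxf : x ≤ f x := hfid x hx1 hx2
    rcases le_total (f x) ((f ^ (M + 1)) z) with h | h
    · rw [glue_le h, glue_le (hxf.trans h), mul_apply, mul_apply]
      have t1 : θ x ≤ 66 * K + 30 := by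
        have := θ.le_iff.2 (hxf.trans h)
        rw [zM.1, hz] at this
        push_cast at this
        linarith
      have t2 : Ξ (66 * K + 30) = 66 * K + 30 := by
        rw [c3 _ (by linarith)]
        have := psk (66 * K + 30) 0
        push_cast at this
        rwa [zero_add, ps0, zero_add] at this
      rw [relθ x hx1 (by linarith), w3]
      · rw [inv_apply_self]
      · rw [← t2, le_iff]; exact t1
    rcases le_total ((f ^ (M + 1)) z) x with h' | h'
    · rw [glue_ge h, glue_ge h']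
      simp only [mul_apply, tr_apply]
      set v := (f ^ (M + 1))⁻¹ x with hv
      have v1 : z ≤ v := by rw [hv, le_inv_iff]; exact h'
      have v2 : v ≤ q := by rw [← fqinv, hv, le_iff]; exact hx2
      have v3 : (f ^ (M + 1))⁻¹ (f x) = f v := by
        rw [inv_eq_iff, ← pow_succ_apply', pow_succ_apply, hv, apply_inv_self]
      have v4 : 30 ≤ ΦR v := by rw [← r1, le_iff]; exact v1
      rw [v3, r3 v v1 v2, w4 _ (by linarith), add_sub_cancel_right]
    · rw [glue_ge h, glue_le h']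
      simp only [mul_apply, tr_apply]
      set v := (f ^ M)⁻¹ x with hv
      have hxv : x = (f ^ M) v := by rw [hv, apply_inv_self]
      have v3 : (f ^ (M + 1))⁻¹ (f x) = v := by
        rw [inv_eq_iff, pow_succ_apply, ← hxv]
      have v1 : z ≤ v := by
        rw [hv, le_inv_iff, ← f.le_iff, ← pow_succ_apply]; exact h
      have v2 : v ≤ f z := by
        rw [hv, inv_le_iff, ← pow_succ_apply']; exact h'
      have b1 : 80 ≤ Φ N0 v := by rw [← hz, le_iff]; exact v1
      have b2 : Φ N0 v ≤ 81 := by rw [← hfz, le_iff]; exact v2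
      have y1 := (fpow M v v1 v2 (by linarith)).1
      rw [← hxv] at y1
      have y2 : hh0 (Φ N0 v - 80) = ΦR v - 30 := by
        rw [hh0d]
        simp only [mul_apply, tr_apply]
        rw [sub_add_cancel, inv_apply_self]; ring
      have y3 : ψ (Φ N0 v - 80) = ΦR v - 30 := by
        rw [ps1 _ (by linarith) (by linarith), y2]
      have y4 : Ξ (θ x) = ΦR v + 66 * K - 1 := by
        rw [c3 _ (by rw [y1]; linarith), y1]
        have := psk (66 * K + 29) (Φ N0 v - 80)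
        push_cast at this
        rw [show Φ N0 v + (M : ℝ) = Φ N0 v - 80 + (66 * K + 29) by linarith, this, y3]; ring
      have b3 : 30 ≤ ΦR v := by rw [← r1, le_iff]; exact v1
      have b4 : ΦR v ≤ 31 := by rw [← r4, le_iff]; exact v2
      rw [v3, y4, w4 _ (by linarith), gx_b (by linarith)]; ring

end G

end Pool.Agent.Helper237
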