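import Pool.Agent.Helper237.Basic

namespace Pool.Agent.Helper237

open Set Filter Topology

namespace G

theorem zpow_succ_apply (f : G) (k : ℤ) (x : ℝ) : (f ^ (k + 1)) x = f ((f ^ k) x) := by
  rw [add_comm, zpow_one_add]; rfl
theorem zpow_succ_apply' (f : G) (k : ℤ) (x : ℝ) : (f ^ (k + 1)) x = (f ^ k) (f x) := by
  rw [zpow_add_one]; rfl
@[simp] theorem zpow_neg_zpow (f : G) (k : ℤ) (x : ℝ) : (f ^ (-k)) ((f ^ k) x) = x := by
  rw [zpow_neg]; simp
@[simp] theorem zpow_zpow_neg (f : G) (k : ℤ) (x : ℝ) : (f ^ k) ((f ^ (-k)) x) = x := by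
  rw [zpow_neg]; simp

/-- orbits leave intervals without fixed points -/
theorem orb (f : G) (b y : ℝ) (h : ∀ x, b ≤ x → x ≤ y → x < f x) : ∃ n : ℕ, y < (f ^ n) b := by
  by_cases hby : y < b
  · exact ⟨0, by simpa using hby⟩
  push Not at hby
  obtain ⟨x0, hx0, hmin⟩ := isCompact_Icc.exists_isMinOn (s := Icc b y) ⟨b, le_rfl, hby⟩
    (f := fun x => f x - x) ((f.cont.sub continuous_id).continuousOn)
  have hδ : 0 < f x0 - x0 := by
    have := h x0 hx0.1 hx0.2
    linarith
  set δ := f x0 - x0 with hδd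
  have key : ∀ n : ℕ, y < (f ^ n) b ∨ b + n * δ ≤ (f ^ n) b := by
    intro n
    induction n with
    | zero => right; simp
    | succ n ih =>
      have hbf : b < f b := h b le_rfl hby
      have hbn : b ≤ (f ^ n) b := by
        clear ih
        induction n with
        | zero => simp
        | succ n ih =>
          rw [pow_succ_apply']
          exact ih.trans ((f ^ n).le_iff.2 hbf.le)
      by_cases hyn : y < (f ^ n) b
      · left
        rw [pow_succ_apply']
        exact hyn.trans_le ((f ^ n).le_iff.2 hbf.le)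
      · rcases ih with ih | ih
        · exact absurd ih hyn
        · push Not at hyn
          right
          have h2 := hmin (show (f ^ n) b ∈ Icc b y from ⟨hbn, hyn⟩)
          have h2 : f x0 - x0 ≤ f ((f ^ n) b) - (f ^ n) b := h2
          rw [pow_succ_apply]
          push_cast
          linarith
  obtain ⟨n, hn⟩ := exists_nat_gt ((y - b) / δ)
  rw [div_lt_iff₀ hδ] at hn
  rcases key n with h1 | h1
  · exact ⟨n, h1⟩
  · exact ⟨n, by linarith⟩

theorem pow_mono_of_lt (f : G) {b : ℝ} (hb : b ≤ f b) : Monotone (fun n : ℕ => (f ^ n) b) := by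
  refine monotone_nat_of_le_succ fun n => ?_
  rw [pow_succ_apply']
  exact (f ^ n).le_iff.2 hb

theorem zpow_mono (f : G) (hf : ∀ x, x < f x) (x : ℝ) : StrictMono (fun k : ℤ => (f ^ k) x) := by
  refine strictMono_int_of_lt_succ fun k => ?_
  rw [zpow_succ_apply]
  exact hf _

theorem exists_idx (f : G) (hf : ∀ x, x < f x) (s x : ℝ) :
    ∃ k : ℤ, (f ^ k) s ≤ x ∧ x < (f ^ (k + 1)) s := by
  have hinh : ∃ z : ℤ, (f ^ z) s ≤ x := by
    obtain ⟨n, hn⟩ := f.orb x s (fun t _ _ => hf t)
    refine ⟨-(n : ℤ), ?_⟩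
    rw [zpow_neg, inv_le_iff, zpow_natCast]
    exact hn.le
  have hbdd : ∃ b : ℤ, ∀ z : ℤ, (f ^ z) s ≤ x → z ≤ b := by
    obtain ⟨n, hn⟩ := f.orb s x (fun t _ _ => hf t)
    refine ⟨n, fun z hz => ?_⟩
    by_contra hlt
    push Not at hlt
    have := (f.zpow_mono hf s) hlt
    simp only [zpow_natCast] at this
    linarith
  obtain ⟨k, hk, hmax⟩ := Int.exists_greatest_of_bdd hbdd hinh
  refine ⟨k, hk, ?_⟩
  by_contra hcon
  push Not at hcon
  have := hmax _ hcon
  lia

theorem exists_ext (f g h : G) (s : ℝ) (hf : ∀ x, x < f x) (hg : ∀ x, x < g x)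
    (hh : h (f s) = g (h s)) :
    ∃ H : G, (∀ x, s ≤ x → x ≤ f s → H x = h x) ∧ ∀ x, H (f x) = g (H x) := by
  choose k hk1 hk2 using f.exists_idx hf s
  set H : ℝ → ℝ := fun x => (g ^ (k x)) (h ((f ^ (-(k x))) x)) with hH
  have hkk : ∀ x (j : ℤ), (f ^ j) s ≤ x → x < (f ^ (j + 1)) s → k x = j := by
    intro x j h1 h2
    have a1 : k x < j + 1 := (f.zpow_mono hf s).lt_iff_lt.1 ((hk1 x).trans_lt h2)
    have a2 : j < k x + 1 := (f.zpow_mono hf s).lt_iff_lt.1 (h1.trans_lt (hk2 x))
    lia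
  have key : ∀ x (j : ℤ), (f ^ j) s ≤ x → x ≤ (f ^ (j + 1)) s →
      H x = (g ^ j) (h ((f ^ (-j)) x)) := by
    intro x j h1 h2
    rcases h2.lt_or_eq with h2 | h2
    · simp only [hH]
      rw [hkk x j h1 h2]
    · have h3 : k x = j + 1 := hkk x (j + 1) h2.symm.le (by
        rw [h2]
        exact (f.zpow_mono hf s) (show j + 1 < j + 1 + 1 by lia))
      simp only [hH]
      rw [h3, h2, zpow_neg_zpow, zpow_succ_apply', ← hh, zpow_succ_apply', zpow_neg_zpow]
  have hsm : StrictMono H := by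
    intro x y hxy
    have hle : k x ≤ k y := by
      by_contra hlt
      push Not at hlt
      have h1 : k y + 1 ≤ k x := by lia
      have h2 : (f ^ (k y + 1)) s ≤ (f ^ k x) s := (f.zpow_mono hf s).monotone h1
      linarith [hk1 x, hk2 y]
    rcases hle.eq_or_lt with he | hl
    · simp only [hH]
      rw [he]
      exact (g ^ k y).lt_iff.2 (h.lt_iff.2 ((f ^ (-(k y))).lt_iff.2 hxy))
    · have h1 : H x < (g ^ (k x + 1)) (h s) := by
        simp only [hH]
        rw [zpow_succ_apply', ← hh]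
        refine (g ^ k x).lt_iff.2 (h.lt_iff.2 ?_)
        have := hk2 x
        rw [zpow_succ_apply'] at this
        rw [zpow_neg, inv_lt_iff]
        exact this
      have h2 : (g ^ (k x + 1)) (h s) ≤ (g ^ (k y)) (h s) :=
        (g.zpow_mono hg (h s)).monotone (by lia)
      have h3 : (g ^ (k y)) (h s) ≤ H y := by
        simp only [hH]
        refine (g ^ k y).le_iff.2 (h.le_iff.2 ?_)
        rw [zpow_neg, le_inv_iff]
        exact hk1 y
      linarith
  have hsurj : Function.Surjective H := by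
    intro y
    obtain ⟨j, hj1, hj2⟩ := g.exists_idx hg (h s) y
    refine ⟨(f ^ j) (h⁻¹ ((g ^ (-j)) y)), ?_⟩
    rw [key _ j]
    · simp
    · refine (f ^ j).le_iff.2 ?_
      rw [le_inv_iff, zpow_neg, le_inv_iff]
      exact hj1
    · rw [zpow_succ_apply']
      refine (f ^ j).le_iff.2 ?_
      rw [inv_le_iff, hh, zpow_neg, inv_le_iff]
      rw [zpow_succ_apply'] at hj2
      exact hj2.le
  have hpl : ∀ x, RA H x ∧ LA H x := by
    intro x
    constructor
    · refine ((g ^ (k x) * h * f ^ (-(k x))).ra x).congr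
        (e := (f ^ (k x + 1)) s - x) (by linarith [hk2 x]) ?_
      intro t h1 h2
      rw [key t (k x) ((hk1 x).trans h1) (by linarith)]
      rfl
    · rcases (hk1 x).lt_or_eq with h1 | h1
      · refine ((g ^ (k x) * h * f ^ (-(k x))).la x).congr
          (e := x - (f ^ (k x)) s) (by linarith) ?_
        intro t h2 h3
        rw [key t (k x) (by linarith) (h3.trans (hk2 x).le)]
        rfl
      · have h4 : (f ^ (k x - 1)) s < (f ^ (k x)) s := (f.zpow_mono hf s) (by lia)
        refine ((g ^ (k x - 1) * h * f ^ (-(k x - 1))).la x).congr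
          (e := x - (f ^ (k x - 1)) s) (by linarith) ?_
        intro t h2 h3
        rw [key t (k x - 1) (by linarith) (by rw [sub_add_cancel, h1]; exact h3)]
        rfl
  refine ⟨mk' H hsm hsurj hpl, ?_, ?_⟩
  · intro x h1 h2
    change H x = h x
    rw [key x 0 (by simpa using h1) (by simpa using h2)]
    simp
  · intro x
    change H (f x) = g (H x)
    rw [key (f x) (k x + 1)]
    · rw [zpow_succ_apply]
      congr 2
      congr 1
      rw [neg_add, ← sub_eq_add_neg, zpow_sub_one]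
      simp
    · rw [zpow_succ_apply]; exact f.le_iff.2 (hk1 x)
    · rw [zpow_succ_apply]; exact f.le_iff.2 (hk2 x).le

theorem ext_unique (f g H H' : G) (s : ℝ) (hf : ∀ x, x < f x)
    (h1 : ∀ x, H (f x) = g (H x)) (h2 : ∀ x, H' (f x) = g (H' x))
    (h3 : ∀ x, s ≤ x → x ≤ f s → H x = H' x) : H = H' := by
  have hH : ∀ (k : ℤ) x, H ((f ^ k) x) = (g ^ k) (H x) := by
    have e : H * f = g * H := by ext x; exact h1 x
    intro k x
    have : H * f ^ k = g ^ k * H := by
      have : g = H * f * H⁻¹ := by rw [e]; group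
      rw [this, conj_zpow]; group
    exact congrArg (fun u : G => u x) this
  have hH' : ∀ (k : ℤ) x, H' ((f ^ k) x) = (g ^ k) (H' x) := by
    have e : H' * f = g * H' := by ext x; exact h2 x
    intro k x
    have : H' * f ^ k = g ^ k * H' := by
      have : g = H' * f * H'⁻¹ := by rw [e]; group
      rw [this, conj_zpow]; group
    exact congrArg (fun u : G => u x) this
  ext x
  obtain ⟨k, hk1, hk2⟩ := f.exists_idx hf s x
  have : x = (f ^ k) ((f ^ (-k)) x) := by simp
  rw [this, hH, hH', h3]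
  · rw [zpow_neg, le_inv_iff]; exact hk1
  · rw [zpow_neg, inv_le_iff]
    rw [zpow_succ_apply'] at hk2
    exact hk2.le

/-- limits of sequences which stabilise on rays -/
theorem exists_lim (Φ : ℕ → G) (x : ℕ → ℝ) (hx : ∀ B, ∃ n, B ≤ x n) (hmono : Monotone x)
    (hst : ∀ n t, t ≤ x n → Φ (n + 1) t = Φ n t) (hv : ∀ B, ∃ n, B ≤ Φ n (x n)) :
    ∃ Ψ : G, ∀ n t, t ≤ x n → Ψ t = Φ n t := by
  have hst' : ∀ n m t, n ≤ m → t ≤ x n → Φ m t = Φ n t := by
    intro n m t hnm ht
    induction m, hnm using Nat.le_induction with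
    | base => rfl
    | succ m hm ih => rw [hst m t (ht.trans (hmono hm)), ih]
  choose k hk using fun t : ℝ => hx t
  set F : ℝ → ℝ := fun t => Φ (k t) t with hF
  have key : ∀ n t, t ≤ x n → F t = Φ n t := by
    intro n t ht
    simp only [hF]
    rcases le_total n (k t) with h | h
    · exact hst' n (k t) t h ht
    · exact (hst' (k t) n t h (hk t)).symm
  refine ⟨mk' F ?_ ?_ ?_, key⟩
  · intro s t hst2
    rw [key (k t) t (hk t), key (k t) s (hst2.le.trans (hk t))]
    exact (Φ (k t)).lt_iff.2 hst2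
  · intro y
    obtain ⟨n, hn⟩ := hv y
    refine ⟨(Φ n)⁻¹ y, ?_⟩
    rw [key n _ ((Φ n).inv_le_iff.2 hn)]
    simp
  · intro t
    have h1 := hk (t + 1)
    constructor
    · refine ((Φ (k (t + 1))).ra t).congr (e := 1) one_pos ?_
      intro u h2 h3
      exact key _ _ (by linarith)
    · refine ((Φ (k (t + 1))).la t).congr (e := 1) one_pos ?_
      intro u h2 h3
      exact key _ _ (by linarith)

end G

/-- a continuous induction principle on closed sets -/
theorem chain (F : Set ℝ) (hF : IsClosed F) (P : ℝ → ℝ → Prop)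
    (htr : ∀ x y z, P x y → P y z → P x z) (p q : ℝ) (hpq : p < q) (hp : p ∈ F)
    (hR : ∀ x ∈ F, p ≤ x → x < q → ∃ y ∈ F, x < y ∧ y ≤ q ∧ P x y)
    (hL : ∀ z ∈ F, p < z → z ≤ q → ∃ e > 0, ∀ y ∈ F, p < y → z - e < y → y < z → P y z) :
    P p q := by
  set S : Set ℝ := {x | x ∈ F ∧ p < x ∧ x ≤ q ∧ P p x} with hS
  have hne : S.Nonempty := by
    obtain ⟨y, hy, h1, h2, h3⟩ := hR p hp le_rfl hpq
    exact ⟨y, hy, h1, h2, h3⟩
  have hbdd : BddAbove S := ⟨q, fun x hx => hx.2.2.1⟩
  set z := sSup S with hz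
  have hcl : z ∈ closure S := csSup_mem_closure hne hbdd
  have hzF : z ∈ F := hF.closure_subset_iff.2 (fun x hx => hx.1) hcl
  have hzq : z ≤ q := csSup_le hne fun x hx => hx.2.2.1
  have hpz : p < z := by
    obtain ⟨y, hy⟩ := hne
    exact hy.2.1.trans_le (le_csSup hbdd hy)
  have hPz : P p z := by
    obtain ⟨e, he, H⟩ := hL z hzF hpz hzq
    obtain ⟨x, hx, hxz⟩ := exists_lt_of_lt_csSup hne (show z - e < z by linarith)
    have hxz' : x ≤ z := le_csSup hbdd hx
    rcases hxz'.lt_or_eq with h | h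
    · exact htr _ _ _ hx.2.2.2 (H x hx.1 hx.2.1 hxz h)
    · rw [← h]; exact hx.2.2.2
  rcases hzq.lt_or_eq with h | h
  · obtain ⟨y, hy, h1, h2, h3⟩ := hR z hzF hpz.le h
    have : y ∈ S := ⟨hy, hpz.trans h1, h2, htr _ _ _ hPz h3⟩
    have := le_csSup hbdd this
    linarith
  · rw [← h]; exact hPz

end Pool.Agent.Helper237
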