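import Pool.Agent.Helper237.Dyn

namespace Pool.Agent.Helper237

open Set Filter Topology

namespace G

theorem exists_per (g : G) (L s : ℝ) (hL : 0 < L) (h : g (s + L) = g s + L) :
    ∃ H : G, (∀ x, s ≤ x → x ≤ s + L → H x = g x) ∧ ∀ x, H (x + L) = H x + L := by
  obtain ⟨H, h1, h2⟩ := exists_ext (tr L) (tr L) g s (fun x => by simp [hL])
    (fun x => by simp [hL]) (by simpa using h)
  exact ⟨H, by simpa using h1, by simpa using h2⟩

/-- periodic extension -/
noncomputable def per (g : G) (L s : ℝ) (hL : 0 < L) (h : g (s + L) = g s + L) : G :=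
  Classical.choose (exists_per g L s hL h)

theorem per_eq {g : G} {L s : ℝ} {hL : 0 < L} {h : g (s + L) = g s + L} {x : ℝ}
    (h1 : s ≤ x) (h2 : x ≤ s + L) : per g L s hL h x = g x :=
  (Classical.choose_spec (exists_per g L s hL h)).1 x h1 h2

theorem per_add {g : G} {L s : ℝ} {hL : 0 < L} {h : g (s + L) = g s + L} (x : ℝ) :
    per g L s hL h (x + L) = per g L s hL h x + L :=
  (Classical.choose_spec (exists_per g L s hL h)).2 x

theorem per_unique {L s : ℝ} (hL : 0 < L) {A B : G} (hA : ∀ x, A (x + L) = A x + L)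
    (hB : ∀ x, B (x + L) = B x + L) (hAB : ∀ x, s ≤ x → x ≤ s + L → A x = B x) : A = B :=
  ext_unique (tr L) (tr L) A B s (fun x => by simp [hL]) (by simpa using hA) (by simpa using hB)
    (by simpa using hAB)

theorem addk {L : ℝ} {A : G} (hA : ∀ x, A (x + L) = A x + L) (k : ℤ) (x : ℝ) :
    A (x + L * k) = A x + L * k := by
  have e : A * tr L = tr L * A := by ext x; simpa using hA x
  have e2 : A * (tr L) ^ k = (tr L) ^ k * A := (Commute.zpow_right (show Commute A (tr L) from e) k)
  rw [tr_zpow] at e2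
  have := congrArg (fun u : G => u x) e2
  simpa [mul_comm] using this

theorem inv_addL {L : ℝ} {A : G} (hA : ∀ x, A (x + L) = A x + L) (x : ℝ) :
    A⁻¹ (x + L) = A⁻¹ x + L := by
  rw [inv_eq_iff, hA, apply_inv_self]

/-- the basic reversible element -/
noncomputable def E0 : G :=
  glue (aff (1 / 2) 6 (by norm_num)) (glue (aff 2 (-18) (by norm_num)) (tr 6) 24
    (by simp; norm_num)) 16 (by rw [glue_le (by norm_num)]; simp; norm_num)

noncomputable def E : G := per E0 66 0 (by norm_num)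
  (by
    unfold E0
    rw [glue_ge (by norm_num), glue_ge (by norm_num), glue_le (by norm_num)]
    simp; norm_num)

theorem E_add (x : ℝ) : E (x + 66) = E x + 66 := per_add x

theorem E_addk (k : ℤ) (x : ℝ) : E (x + 66 * k) = E x + 66 * k := addk E_add k x

theorem Einv_add (x : ℝ) : E⁻¹ (x + 66) = E⁻¹ x + 66 := inv_addL E_add x

theorem Einv_addk (k : ℤ) (x : ℝ) : E⁻¹ (x + 66 * k) = E⁻¹ x + 66 * k := addk Einv_add k x

theorem E_a {x : ℝ} (h1 : 0 ≤ x) (h2 : x ≤ 16) : E x = x / 2 + 6 := by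
  unfold E
  rw [per_eq h1 (by linarith)]
  unfold E0
  rw [glue_le h2]; simp; ring

theorem E_b {x : ℝ} (h1 : 16 ≤ x) (h2 : x ≤ 24) : E x = 2 * x - 18 := by
  unfold E
  rw [per_eq (by linarith) (by linarith)]
  unfold E0
  rw [glue_ge h1, glue_le h2]; simp; ring

theorem E_c {x : ℝ} (h1 : 24 ≤ x) (h2 : x ≤ 66) : E x = x + 6 := by
  unfold E
  rw [per_eq (by linarith) (by linarith)]
  unfold E0
  rw [glue_ge (by linarith), glue_ge h1]; simp

theorem E_a2 {x : ℝ} (h1 : 66 ≤ x) (h2 : x ≤ 82) : E x = x / 2 + 39 := by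
  have h := E_add (x - 66)
  rw [sub_add_cancel] at h
  rw [h, E_a (by linarith) (by linarith)]; ring

theorem E_b2 {x : ℝ} (h1 : 82 ≤ x) (h2 : x ≤ 90) : E x = 2 * x - 84 := by
  have h := E_add (x - 66)
  rw [sub_add_cancel] at h
  rw [h, E_b (by linarith) (by linarith)]; ring

theorem E_c2 {x : ℝ} (h1 : 90 ≤ x) (h2 : x ≤ 132) : E x = x + 6 := by
  have h := E_add (x - 66)
  rw [sub_add_cancel] at h
  rw [h, E_c (by linarith) (by linarith)]; ring

theorem E18 : E 18 = 18 := by rw [E_b (by norm_num) (by norm_num)]; norm_num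
theorem E78 : E 78 = 78 := by rw [E_a2 (by norm_num) (by norm_num)]; norm_num
theorem E84 : E 84 = 84 := by rw [E_b2 (by norm_num) (by norm_num)]; norm_num

theorem Einv48 : E⁻¹ 48 = 42 := by
  rw [inv_eq_iff, E_c (by norm_num) (by norm_num)]; norm_num

/-- model conjugation used for reversing -/
noncomputable def Ld : G := aff (1 / 3) 72 (by norm_num)
noncomputable def k1 : G := (E⁻¹) ^ 7 * Ld * (E⁻¹) ^ 7
noncomputable def k2 : G := aff (1 / 384) (84 - 78 / 384) (by norm_num)

theorem Einv7 (x y : ℝ) : ((E⁻¹) ^ 7) x = y ↔ (E ^ 7) y = x := by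
  rw [inv_pow, inv_eq_iff]; exact eq_comm

theorem pow7 (f : G) (x : ℝ) : (f ^ 7) x = f (f (f (f (f (f (f x)))))) := by
  simp [pow_succ]

theorem E7_18 : (E ^ 7) 18 = 18 := pow_fix _ E18 7
theorem E7_78 : (E ^ 7) 78 = 78 := pow_fix _ E78 7

theorem E7_mid {w : ℝ} (h1 : 21 ≤ w) (h2 : w ≤ 24) : (E ^ 7) w = 2 * w + 18 := by
  rw [pow7, E_b (x := w) (by linarith) (by linarith), E_c (x := 2 * w - 18) (by linarith)
    (by linarith), E_c (x := 2 * w - 18 + 6) (by linarith)
    (by linarith), E_c (x := 2 * w - 18 + 6 + 6) (by linarith)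
    (by linarith), E_c (x := 2 * w - 18 + 6 + 6 + 6) (by linarith)
    (by linarith), E_c (x := 2 * w - 18 + 6 + 6 + 6 + 6) (by linarith)
    (by linarith), E_c (x := 2 * w - 18 + 6 + 6 + 6 + 6 + 6) (by linarith)
    (by linarith)]
  ring

theorem E_near84 {v : ℝ} (h1 : 0 ≤ v) (h2 : v ≤ 2) : E (84 - v) = 84 - 2 * v := by
  rw [E_b2 (by linarith) (by linarith)]; ring

theorem E7_hi {v : ℝ} (h1 : 1 / 32 ≤ v) (h2 : v ≤ 1 / 16) :
    (E ^ 7) (84 - v) = 81 - 32 * v := by
  rw [pow7, E_near84 (v := v) (by linarith) (by linarith),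
    E_near84 (v := 2 * v) (by linarith) (by linarith),
    E_near84 (v := 2 * (2 * v)) (by linarith) (by linarith),
    E_near84 (v := 2 * (2 * (2 * v))) (by linarith) (by linarith),
    E_near84 (v := 2 * (2 * (2 * (2 * v)))) (by linarith) (by linarith),
    E_near84 (v := 2 * (2 * (2 * (2 * (2 * v))))) (by linarith) (by linarith),
    E_a2 (by linarith) (by linarith)]
  ring

theorem k1_mid {x : ℝ} (h1 : 60 ≤ x) (h2 : x ≤ 66) : k1 x = 84 - (72 - x) / 192 := by
  unfold k1
  rw [mul_apply, mul_apply]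
  have a1 : ((E⁻¹) ^ 7) x = (x - 18) / 2 := by
    rw [Einv7, E7_mid (by linarith) (by linarith)]; ring
  rw [a1, Einv7, E7_hi (by linarith) (by linarith)]
  simp [Ld]; ring

theorem k1_18 : k1 18 = 78 := by
  unfold k1
  rw [mul_apply, mul_apply]
  have a1 : ((E⁻¹) ^ 7) 18 = 18 := by rw [Einv7, E7_18]
  rw [a1, Einv7, E7_78]
  simp [Ld]; norm_num

theorem k2_apply (x : ℝ) : k2 x = 84 - (78 - x) / 384 := by
  simp [k2]; ring

noncomputable def h2 : G := glue k1 k2 66 (by
  rw [k1_mid (by norm_num) (by norm_num), k2_apply]; norm_num)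

theorem h2_18 : h2 18 = 78 := by unfold h2; rw [glue_le (by norm_num), k1_18]
theorem h2_78 : h2 78 = 84 := by unfold h2; rw [glue_ge (by norm_num), k2_apply]; norm_num

theorem Ld_E {y : ℝ} (h1 : 18 ≤ y) (h2 : y ≤ 24) : E (Ld (E y)) = Ld y := by
  rw [E_b (x := y) (by linarith) (by linarith)]
  have : Ld (2 * y - 18) = 66 + 2 * y / 3 := by simp [Ld]; ring
  rw [this, E_a2 (by linarith) (by linarith)]
  simp [Ld]; ring

theorem k1_E {x : ℝ} (hx1 : 18 ≤ x) (hx2 : x ≤ 66) : E (k1 (E x)) = k1 x := by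
  set y := ((E⁻¹) ^ 7) x with hy
  have hyx : (E ^ 7) y = x := by rw [← Einv7]
  have y1 : 18 ≤ y := by
    rw [← (E ^ 7).le_iff, E7_18, hyx]; exact hx1
  have y2 : y ≤ 24 := by
    rw [← (E ^ 7).le_iff, E7_mid (by norm_num) le_rfl, hyx]; linarith
  have e1 : ((E⁻¹) ^ 7) (E x) = E y := by
    rw [Einv7, ← pow_succ_apply', pow_succ_apply, hyx]
  have e2 : k1 x = ((E⁻¹) ^ 7) (Ld y) := rfl
  have e3 : k1 (E x) = ((E⁻¹) ^ 7) (Ld (E y)) := by
    unfold k1
    rw [mul_apply, mul_apply, e1]
  rw [e2, e3, ← Ld_E y1 y2]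
  rw [eq_comm, Einv7, ← pow_succ_apply', pow_succ_apply]
  have : (E ^ 7) (((E⁻¹) ^ 7) (Ld (E y))) = Ld (E y) := by rw [← Einv7]
  rw [this]

theorem h2_E {x : ℝ} (hx1 : 18 ≤ x) (hx2 : x ≤ 78) : E (h2 (E x)) = h2 x := by
  rcases le_total x 60 with h | h
  · have hEx : E x ≤ 66 := by
      have h60 : E 60 = 66 := by rw [E_c (by norm_num) (by norm_num)]; norm_num
      rw [← h60, E.le_iff]; exact h
    unfold h2
    rw [glue_le hEx, glue_le (by linarith)]
    exact k1_E hx1 (by linarith)
  · rcases le_total x 66 with h' | h'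
    · unfold h2
      rw [E_c (x := x) (by linarith) h', glue_ge (by linarith), glue_le h', k2_apply,
        k1_mid h h', E_near84 (by linarith) (by linarith)]
      ring
    · unfold h2
      rw [E_a2 (x := x) (by linarith) (by linarith), glue_ge (by linarith), glue_ge h',
        k2_apply, k2_apply, E_near84 (by linarith) (by linarith)]
      ring

noncomputable def R0 : G := glue h2 (tr 66 * h2⁻¹) 78 (by
  rw [h2_78, mul_apply, (inv_eq_iff _).2 h2_18.symm]; simp; norm_num)

noncomputable def R : G := per R0 66 18 (by norm_num) (by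
  unfold R0
  rw [glue_ge (by norm_num), glue_le (by norm_num), h2_18, mul_apply,
    show (18 + 66 : ℝ) = 84 by norm_num, (inv_eq_iff _).2 h2_78.symm]
  simp)

theorem R_add (x : ℝ) : R (x + 66) = R x + 66 := per_add x

theorem E_rev : R * E * R⁻¹ = E⁻¹ := by
  have key : E * (R * E) = R := by
    refine per_unique (L := 66) (s := 18) (by norm_num) ?_ R_add ?_
    · intro x
      simp only [mul_apply, E_add, R_add]
    · intro x hx1 hx2
      simp only [mul_apply]
      have hEx1 : 18 ≤ E x := by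
        have := (E.le_iff).2 hx1
        rwa [E18] at this
      have hEx2 : E x ≤ 84 := by
        have := (E.le_iff).2 hx2
        rwa [show (18 + 66 : ℝ) = 84 by norm_num, E84] at this
      have r1 : R (E x) = R0 (E x) := per_eq hEx1 (by linarith)
      have r2 : R x = R0 x := per_eq hx1 hx2
      rw [r1, r2]
      unfold R0
      rcases le_total x 78 with h | h
      · have hEx3 : E x ≤ 78 := by
          have := (E.le_iff).2 h
          rwa [E78] at this
        rw [glue_le hEx3, glue_le h]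
        exact h2_E hx1 h
      · have hEx3 : 78 ≤ E x := by
          have := (E.le_iff).2 h
          rwa [E78] at this
        rw [glue_ge hEx3, glue_ge h, mul_apply, mul_apply]
        simp only [tr_apply, E_add]
        congr 1
        -- x = h2 w
        obtain ⟨w, rfl⟩ := h2.surj x
        have w1 : 18 ≤ w := by
          rw [← h2.le_iff, h2_18]; exact h
        have w2 : w ≤ 78 := by
          rw [← h2.le_iff, h2_78]; linarith
        have u1 : 18 ≤ E⁻¹ w := by rw [le_inv_iff, E18]; exact w1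
        have u2 : E⁻¹ w ≤ 78 := by rw [inv_le_iff, E78]; exact w2
        have := h2_E u1 u2
        rw [apply_inv_self] at this
        rw [this]
        simp
  have : R * E = E⁻¹ * R := by
    rw [eq_inv_mul_iff_mul_eq]; exact key
  rw [this]; group

end G

end Pool.Agent.Helper237
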