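import Pool.Agent.Helper237.Model

namespace Pool.Agent.Helper237

open Set Filter Topology

namespace G

/-- the product of a conjugate of E and of the inverse of E -/
noncomputable def cm (W : G) : G := W⁻¹ * E * W * E⁻¹

theorem cm_apply (W : G) (x : ℝ) : cm W x = W⁻¹ (E (W (E⁻¹ x))) := rfl

theorem cm_congr_le {W W1 : G} {c y : ℝ} (h : ∀ x, x ≤ c → W x = W1 x) (h1 : E⁻¹ y ≤ c)
    (h2 : E (W1 (E⁻¹ y)) ≤ W1 c) : cm W y = cm W1 y := by
  rw [cm_apply, cm_apply, h _ h1, inv_eq_iff]
  rw [h _ ((W1.inv_le_iff).2 h2), apply_inv_self]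

theorem cm_congr_ge {W W1 : G} {c y : ℝ} (h : ∀ x, c ≤ x → W x = W1 x) (h1 : c ≤ E⁻¹ y)
    (h2 : W1 c ≤ E (W1 (E⁻¹ y))) : cm W y = cm W1 y := by
  rw [cm_apply, cm_apply, h _ h1, inv_eq_iff]
  rw [h _ ((W1.le_inv_iff).2 h2), apply_inv_self]

/-- the model for the unit translation -/
noncomputable def WT0 : G :=
  glue (aff (6 / 7) (24 / 7) (by norm_num))
    (glue (aff (12 / 7) (66 - 12 / 7 * 73) (by norm_num)) (aff 2 (-82) (by norm_num)) 80
    (by simp; norm_num)) 73 (by rw [glue_le (by norm_num)]; simp; norm_num)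

noncomputable def WT : G := per WT0 66 17 (by norm_num)
  (by
    unfold WT0
    rw [glue_ge (by norm_num), glue_ge (by norm_num), glue_le (by norm_num)]
    simp; norm_num)

theorem WT_add (x : ℝ) : WT (x + 66) = WT x + 66 := per_add x

theorem WT_a {x : ℝ} (h1 : 17 ≤ x) (h2 : x ≤ 73) : WT x = (6 * x + 24) / 7 := by
  unfold WT
  rw [per_eq h1 (by linarith)]
  unfold WT0
  rw [glue_le h2]; simp; ring

theorem WT_b {x : ℝ} (h1 : 73 ≤ x) (h2 : x ≤ 80) : WT x = 66 + 12 / 7 * (x - 73) := by
  unfold WT
  rw [per_eq (by linarith) (by linarith)]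
  unfold WT0
  rw [glue_ge h1, glue_le h2]; simp; ring

theorem WT_c {x : ℝ} (h1 : 80 ≤ x) (h2 : x ≤ 83) : WT x = 2 * x - 82 := by
  unfold WT
  rw [per_eq (by linarith) (by linarith)]
  unfold WT0
  rw [glue_ge (by linarith), glue_ge h1]; simp; ring

theorem WT_rel (x : ℝ) : WT (E x + 1) = E (WT x) := by
  have key : WT * (tr 1 * E) = E * WT := by
    refine per_unique (L := 66) (s := 17) (by norm_num) ?_ ?_ ?_
    · intro x
      simp only [mul_apply, E_add, tr_apply]
      rw [show E x + 66 + 1 = E x + 1 + 66 by ring, WT_add]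
    · intro x
      simp only [mul_apply, E_add, WT_add]
    · intro x hx1 hx2
      simp only [mul_apply, tr_apply]
      rcases le_total x 24 with h | h
      · rcases le_total 18 x with h' | h'
        · rw [E_b (x := x) (by linarith) h, WT_a (by linarith) (by linarith),
            WT_a (by linarith) (by linarith), E_b (by linarith) (by linarith)]; ring
        · rw [E_b (x := x) (by linarith) h, WT_a (by linarith) (by linarith),
            WT_a (by linarith) (by linarith), E_b (by linarith) (by linarith)]; ring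
      rcases le_total x 66 with h' | h'
      · rw [E_c (x := x) (by linarith) h', WT_a (by linarith) (by linarith),
            WT_a (by linarith) (by linarith), E_c (by linarith) (by linarith)]; ring
      rcases le_total x 73 with h3 | h3
      · rw [E_a2 (x := x) (by linarith) (by linarith), WT_b (by linarith) (by linarith),
            WT_a (by linarith) (by linarith), E_c (by linarith) (by linarith)]; ring
      rcases le_total x 80 with h4 | h4
      · rw [E_a2 (x := x) (by linarith) (by linarith), WT_b (by linarith) (by linarith),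
            WT_b (by linarith) (by linarith), E_a2 (by linarith) (by linarith)]; ring
      rcases le_total x 82 with h5 | h5
      · rw [E_a2 (x := x) (by linarith) (by linarith), WT_c (by linarith) (by linarith),
            WT_c (by linarith) (by linarith), E_a2 (by linarith) (by linarith)]; ring
      · rw [E_b2 (x := x) (by linarith) (by linarith), WT_c (by linarith) (by linarith),
            WT_c (by linarith) (by linarith), E_b2 (by linarith) (by linarith)]; ring
  have := congrArg (fun u : G => u x) key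
  simpa only [mul_apply, tr_apply] using this

theorem cm_WT : cm WT = tr 1 := by
  ext x
  rw [cm_apply, inv_eq_iff, ← WT_rel]
  simp

section ent

variable (n : ℝ) (h0 : 0 < n) (h1 : n < 1)

/-- the entrance conjugator -/
noncomputable def We : G :=
  glue 1 (glue (aff n (48 - 48 * n) h0) (glue (aff ((6 - n) / 10) (54 - (6 - n) / 10 * 59)
    (by apply div_pos <;> linarith)) WT 59
    (by rw [WT_a (by norm_num) (by norm_num)]; simp; norm_num)) 49
    (by rw [glue_le (by norm_num)]; simp; ring)) 48
    (by rw [glue_le (by norm_num)]; simp; ring)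

variable {n} {h0} {h1}

theorem We_a {x : ℝ} (hx : x ≤ 48) : We n h0 h1 x = x := by
  unfold We; rw [glue_le hx]; rfl

theorem We_b {x : ℝ} (hx : 48 ≤ x) (hx' : x ≤ 49) : We n h0 h1 x = 48 + n * (x - 48) := by
  unfold We; rw [glue_ge hx, glue_le hx']; simp; ring

theorem We_c {x : ℝ} (hx : 49 ≤ x) (hx' : x ≤ 59) :
    We n h0 h1 x = 54 - (6 - n) / 10 * (59 - x) := by
  unfold We; rw [glue_ge (by linarith), glue_ge hx, glue_le hx']; simp; ring

theorem We_d {x : ℝ} (hx : 59 ≤ x) : We n h0 h1 x = WT x := by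
  unfold We; rw [glue_ge (by linarith), glue_ge (by linarith), glue_ge hx]

theorem We_slope {x y : ℝ} (hx : 48 ≤ x) (hxy : x < y) (hy : y ≤ 66) :
    We n h0 h1 y - We n h0 h1 x < y - x := by
  have step : ∀ a b : ℝ, 48 ≤ a → a < b → b ≤ 66 →
      (b ≤ 49 ∨ (49 ≤ a ∧ b ≤ 59) ∨ 59 ≤ a) → We n h0 h1 b - We n h0 h1 a < b - a := by
    intro a b ha hab hb hc
    rcases hc with hc | ⟨hc, hc'⟩ | hc
    · rw [We_b (by linarith) hc, We_b ha (by linarith)]
      nlinarith
    · rw [We_c (by linarith) hc', We_c hc (by linarith)]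
      nlinarith
    · rw [We_d (by linarith), We_d hc, WT_a (by linarith) (by linarith),
        WT_a (by linarith) (by linarith)]
      linarith
  have step2 : ∀ a b : ℝ, 49 ≤ a → a < b → b ≤ 66 → We n h0 h1 b - We n h0 h1 a < b - a := by
    intro a b ha hab hb
    rcases le_total b 59 with h | h
    · exact step a b (by linarith) hab hb (Or.inr (Or.inl ⟨ha, h⟩))
    rcases le_or_gt 59 a with h' | h'
    · exact step a b (by linarith) hab hb (Or.inr (Or.inr h'))
    · have e1 := step a 59 (by linarith) h' (by norm_num) (Or.inr (Or.inl ⟨ha, le_rfl⟩))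
      rcases h.eq_or_lt with rfl | h
      · exact e1
      · have e2 := step 59 b (by linarith) h (by linarith) (Or.inr (Or.inr le_rfl))
        linarith
  rcases le_total y 49 with h | h
  · exact step x y hx hxy hy (Or.inl h)
  rcases le_or_gt 49 x with h' | h'
  · exact step2 x y h' hxy hy
  · have e1 := step x 49 hx h' (by norm_num) (Or.inl le_rfl)
    rcases h.eq_or_lt with rfl | h
    · exact e1
    · have e2 := step2 49 y le_rfl h hy
      linarith

/-- entrance model -/
theorem ge_a {x : ℝ} (hx : x ≤ 48) : cm (We n h0 h1) x = x := by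
  have e1 : E⁻¹ x ≤ 42 := by rw [inv_le_iff, E_c (by norm_num) (by norm_num)]; linarith
  rw [cm_apply, We_a (by linarith), apply_inv_self, inv_eq_iff, We_a hx]

theorem ge_b {x : ℝ} (hx : 65 ≤ x) : cm (We n h0 h1) x = x + 1 := by
  have e1 : 59 ≤ E⁻¹ x := by rw [le_inv_iff, E_c (by norm_num) (by norm_num)]; linarith
  rw [cm_apply, We_d e1, inv_eq_iff, We_d (by linarith), ← WT_rel]
  simp

theorem Einv_c {x : ℝ} (hx : 30 ≤ x) (hx' : x ≤ 72) : E⁻¹ x = x - 6 := by
  rw [inv_eq_iff, E_c (by linarith) (by linarith)]; ring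

theorem ge_c {x : ℝ} (hx : 48 < x) : x < cm (We n h0 h1) x := by
  rcases le_total 65 x with h | h
  · rw [ge_b h]; linarith
  rw [cm_apply, lt_inv_iff, Einv_c (by linarith) (by linarith)]
  rcases le_total x 54 with h' | h'
  · rw [We_a (x := x - 6) (by linarith), E_c (by linarith) (by linarith)]
    have a1 := We_slope (n := n) (h0 := h0) (h1 := h1) le_rfl hx (by linarith)
    have a2 : We n h0 h1 48 = 48 := We_a le_rfl
    linarith
  · have a1 := We_slope (n := n) (h0 := h0) (h1 := h1) (x := x - 6) (y := x) (by linarith)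
      (by linarith) (by linarith)
    have a3 : We n h0 h1 (x - 6) ≤ We n h0 h1 59 := (We n h0 h1).le_iff.2 (by linarith)
    have a4 : We n h0 h1 48 ≤ We n h0 h1 (x - 6) := (We n h0 h1).le_iff.2 (by linarith)
    have a2 : We n h0 h1 48 = 48 := We_a le_rfl
    rw [We_c (x := 59) (by norm_num) le_rfl] at a3
    rw [E_c (by linarith) (by linarith)]
    linarith

theorem ge_d {x : ℝ} (hx : 48 ≤ x) (hx' : x ≤ 48 + n) :
    cm (We n h0 h1) x = 48 + (x - 48) / n := by
  have h2 : (x - 48) / n ≤ 1 := by rw [div_le_one h0]; linarith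
  have h3 : 0 ≤ (x - 48) / n := div_nonneg (by linarith) h0.le
  rw [cm_apply, Einv_c (by linarith) (by linarith), We_a (by linarith),
    E_c (by linarith) (by linarith), inv_eq_iff, We_b (by linarith) (by linarith)]
  field_simp; ring

/-- the exit conjugator -/
noncomputable def Wx (n : ℝ) (h0 : 0 < n) (h1 : n < 1) : G :=
  tr 66 * E⁻¹ * rf (We n h0 h1) * E * tr (-66)

theorem rfE : rf E = E⁻¹ := by
  have key : rf E * E = 1 := by
    refine per_unique (L := 66) (s := 0) (by norm_num) ?_ ?_ ?_
    · intro x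
      simp only [mul_apply, E_add, rf_apply]
      have := E_add (30 - (E x + 66))
      rw [show 30 - (E x + 66) + 66 = 30 - E x by ring] at this
      rw [this]; ring
    · intro x; simp
    · intro x hx1 hx2
      simp only [mul_apply, rf_apply, one_apply]
      rcases le_total x 16 with h | h
      · rw [E_a (x := x) hx1 h, E_b (by linarith) (by linarith)]; ring
      rcases le_total x 24 with h' | h'
      · rw [E_b (x := x) h h', E_a (by linarith) (by linarith)]; ring
      · rw [E_c (x := x) h' (by linarith)]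
        have := E_add (30 - (x + 6))
        rw [E_c (by linarith) (by linarith)] at this
        linarith
  rw [eq_inv_iff_mul_eq_one]; exact key

theorem cm_conj_general (V : G) :
    cm (tr 66 * E⁻¹ * rf V * E * tr (-66)) = tr 66 * (rf (cm V))⁻¹ * tr (-66) := by
  have hc : tr 66 * E = E * tr 66 := by ext x; simp [E_add]
  have hc1 : E * (tr 66)⁻¹ = (tr 66)⁻¹ * E := by
    rw [eq_inv_mul_iff_mul_eq, ← mul_assoc, hc]; group
  have hc2 : (tr 66)⁻¹ * E⁻¹ = E⁻¹ * (tr 66)⁻¹ := by
    rw [← mul_inv_rev, ← mul_inv_rev, hc]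
  unfold cm
  rw [tr_neg]
  simp only [rf_mul, rf_inv, rfE, mul_inv_rev, inv_inv]
  calc _ = tr 66 * E⁻¹ * (rf V)⁻¹ * E * ((tr 66)⁻¹ * E * tr 66) * E⁻¹ * rf V * E *
        ((tr 66)⁻¹ * E⁻¹) := by group
    _ = _ := by
        rw [← hc1, hc2]; group

theorem Wx_ge {x : ℝ} (hx : 42 ≤ x) : Wx n h0 h1 x = x := by
  unfold Wx
  simp only [mul_apply]
  have e1 : E (-24) = -18 := by
    have := E_add (-24)
    rw [E_c (by norm_num) (by norm_num)] at this
    linarith
  have e2 : -18 ≤ E (tr (-66) x) := by
    rw [← e1, E.le_iff, tr_apply]; linarith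
  rw [rf_apply, We_a (by linarith)]
  simp

theorem Wx_17 : Wx n h0 h1 17 = 18 := by
  unfold Wx
  simp only [mul_apply]
  have e1 : E (-49) = -50 := by
    have := E_add (-49)
    rw [E_b (by norm_num) (by norm_num)] at this
    linarith
  have e2 : E⁻¹ (-48) = -48 := by
    have := E_add (-48)
    rw [E_b (by norm_num) (by norm_num)] at this
    rw [inv_eq_iff]; linarith
  simp only [tr_apply]
  rw [show (17 + -66 : ℝ) = -49 by norm_num, e1, rf_apply,
    show (30 - -50 : ℝ) = 80 by norm_num, We_d (by norm_num), WT_b (by norm_num) (by norm_num),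
    show (30 - (66 + 12 / 7 * (80 - 73)) : ℝ) = -48 by norm_num, e2]
  norm_num

theorem gx_a {x : ℝ} (hx : 48 ≤ x) : cm (Wx n h0 h1) x = x := by
  unfold Wx
  rw [cm_conj_general]
  simp only [mul_apply]
  have : (rf (cm (We n h0 h1)))⁻¹ (tr (-66) x) = tr (-66) x := by
    rw [inv_eq_iff, rf_apply, ge_a]; · ring
    rw [tr_apply]; linarith
  rw [this]; simp

theorem gx_b {x : ℝ} (hx : x ≤ 30) : cm (Wx n h0 h1) x = x + 1 := by
  unfold Wx
  rw [cm_conj_general]
  simp only [mul_apply]
  have : (rf (cm (We n h0 h1)))⁻¹ (tr (-66) x) = tr (-66) (x + 1) := by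
    rw [inv_eq_iff, rf_apply, ge_b]
    · simp; ring
    · rw [tr_apply]; linarith
  rw [this]; simp

theorem gx_c {x : ℝ} (hx : x < 48) : x < cm (Wx n h0 h1) x := by
  unfold Wx
  rw [cm_conj_general]
  simp only [mul_apply]
  have : tr (-66) x < (rf (cm (We n h0 h1)))⁻¹ (tr (-66) x) := by
    rw [lt_inv_iff, rf_apply]
    have := ge_c (n := n) (h0 := h0) (h1 := h1) (x := 30 - tr (-66) x)
      (by rw [tr_apply]; linarith)
    linarith
  simp only [tr_apply] at this ⊢
  linarith

theorem gx_d {x : ℝ} (hx : 47 ≤ x) (hx' : x ≤ 48) :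
    cm (Wx n h0 h1) x = 48 - n * (48 - x) := by
  unfold Wx
  rw [cm_conj_general]
  simp only [mul_apply]
  have : (rf (cm (We n h0 h1)))⁻¹ (tr (-66) x) = tr (-66) (48 - n * (48 - x)) := by
    rw [inv_eq_iff, rf_apply, ge_d]
    · simp; field_simp; ring
    · rw [tr_apply]; nlinarith
    · rw [tr_apply]; nlinarith
  rw [this]; simp

end ent

end G

end Pool.Agent.Helper237
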