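import Pool.Agent.Helper237.Tents

namespace Pool.Agent.Helper237

open Set Filter Topology commutatorElement

namespace G

def AffOn (f : G) (p q : ℝ) : Prop := ∃ α β : ℝ, ∀ r, p ≤ r → r ≤ q → f r = α * r + β

/-- reduction of a up to x -/
def Red (a : G) (c s t x : ℝ) : Prop := ∃ d ∈ D c, (∀ r, r ≤ s → d r = r) ∧
  (∀ r, t ≤ r → d r = r) ∧ (∀ r, r ≤ x → d (a r) = r) ∧ AffOn d (a x) t

theorem Red.step {a : G} {c s t x y : ℝ} (hc : c < s) (htc : t < c + 1)
    (hat : a t = t) (hR : Red a c s t x) (hsx : s ≤ x) (hxy : x < y) (hyt : y ≤ t)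
    (ha : AffOn a x y) : Red a c s t y := by
  obtain ⟨d, hd, d1, d2, d3, α, β, d4⟩ := hR
  obtain ⟨α', β', a4⟩ := ha
  have hbx : d (a x) = x := d3 x le_rfl
  -- b = d * a affine on [x,y]
  have hb : ∀ r, x ≤ r → r ≤ y → d (a r) = x + (d (a y) - x) / (y - x) * (r - x) := by
    have hyx : y - x ≠ 0 := by linarith
    have f1 : ∀ r, x ≤ r → r ≤ y → d (a r) = α * (α' * r + β') + β := by
      intro r h1 h2
      have e1 : a x ≤ a r := a.le_iff.2 h1
      have e2 : a r ≤ t := by rw [← hat, a.le_iff]; linarith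
      rw [d4 _ e1 e2, a4 r h1 h2]
    intro r h1 h2
    have gx := f1 x le_rfl hxy.le
    have gy := f1 y hxy.le le_rfl
    have gr := f1 r h1 h2
    rw [hbx] at gx
    rw [gr, gy]
    field_simp
    have : x = α * (α' * x + β') + β := gx
    linear_combination (r - x) * this - (y - x) * this
  have hy'' : x < d (a y) := by
    rw [← hbx, d.lt_iff, a.lt_iff]; exact hxy
  rcases hyt.lt_or_eq with h | h
  · have hy3 : d (a y) < t := by
      have : d (a t) = t := by rw [hat, d2 t le_rfl]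
      rw [← this, d.lt_iff, a.lt_iff]; exact h
    obtain ⟨u, hu⟩ := exists_tent (x := x) (y := d (a y)) (y' := y) (z := t) hy'' hy3 hxy h
    have huD : u ∈ D c := tent_mem hy'' hy3 hxy h (by linarith) htc hu
    refine ⟨u * d, (D c).mul_mem huD hd, ?_, ?_, ?_, ?_⟩
    · intro r hr
      rw [mul_apply, d1 r hr, hu.l r (by linarith)]
    · intro r hr
      rw [mul_apply, d2 r hr, hu.r r hr]
    · intro r hr
      rw [mul_apply]
      rcases le_total r x with c1 | c1
      · rw [d3 r c1, hu.l r c1]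
      · have e1 : x ≤ d (a r) := by rw [← hbx, d.le_iff, a.le_iff]; exact c1
        have e2 : d (a r) ≤ d (a y) := d.le_iff.2 (a.le_iff.2 hr)
        rw [hu.m1 _ e1 e2, hb r c1 hr]
        have n1 : y - x ≠ 0 := by linarith
        have n2 : d (a y) - x ≠ 0 := by linarith
        field_simp; ring
    · refine ⟨(t - y) / (t - d (a y)) * α, t - (t - y) / (t - d (a y)) * (t - β), ?_⟩
      intro r h1 h2
      have e0 : a x ≤ r := (a.le_iff.2 hxy.le).trans h1
      have e1 : d (a y) ≤ d r := d.le_iff.2 h1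
      have e2 : d r ≤ t := by rw [← d2 t le_rfl, d.le_iff]; exact h2
      rw [mul_apply, hu.m2 _ e1 e2, d4 r e0 h2]; ring
  · subst h
    have hdy : d (a y) = y := by rw [hat, d2 y le_rfl]
    refine ⟨d, hd, d1, d2, ?_, α, β, ?_⟩
    · intro r hr
      rcases le_total r x with c1 | c1
      · exact d3 r c1
      · rw [hb r c1 hr, hdy]
        have n1 : y - x ≠ 0 := by linarith
        field_simp; ring
    · intro r h1 h2
      exact d4 r ((a.le_iff.2 hxy.le).trans h1) h2

theorem mem_D_of_supp {a : G} {c s t : ℝ} (hc : c < s) (hst : s < t) (htc : t < c + 1)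
    (h1 : ∀ x, x ≤ s → a x = x) (h2 : ∀ x, t ≤ x → a x = x) : a ∈ D c := by
  have hat : a t = t := h2 t le_rfl
  have hbase : Red a c s t s :=
    ⟨1, (D c).one_mem, fun _ _ => rfl, fun _ _ => rfl, fun r hr => by rw [h1 r hr]; rfl,
      1, 0, fun r _ _ => by rw [one_apply]; ring⟩
  have key : Red a c s t s → Red a c s t t := by
    refine chain Set.univ isClosed_univ (fun x y => (Red a c s t x → Red a c s t y))
      (fun x y z h1 h2 h => h2 (h1 h)) s t hst (Set.mem_univ _) ?_ ?_
    · intro x _ hsx hxt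
      obtain ⟨α, δ, hα, hδ, H⟩ := a.ra_pos x
      have hm : x < min (x + δ) t := lt_min (by linarith) hxt
      refine ⟨min (x + δ) t, Set.mem_univ _, hm, min_le_right _ _, fun hR => ?_⟩
      refine hR.step hc htc hat hsx hm (min_le_right _ _) ⟨α, a x - α * x, fun r r1 r2 => ?_⟩
      rw [H r r1 (r2.trans (min_le_left _ _))]; ring
    · intro z _ hsz hzt
      obtain ⟨α, δ, hα, hδ, H⟩ := a.la_pos z
      refine ⟨δ, hδ, fun y _ hsy hzy hyz hR => ?_⟩
      refine hR.step hc htc hat hsy.le hyz hzt ⟨α, a z - α * z, fun r r1 r2 => ?_⟩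
      rw [H r (by linarith) r2]; ring
  obtain ⟨d, hd, d1, d2, d3, _⟩ := key hbase
  have : d * a = 1 := by
    ext r
    rw [mul_apply, one_apply]
    rcases le_total r t with h | h
    · exact d3 r h
    · rw [h2 r h, d2 r h]
  have : a = d⁻¹ := eq_inv_of_mul_eq_one_right this
  rw [this]
  exact (D c).inv_mem hd

/-- all periodic maps with an integral fixed point are twist blocks -/
theorem TB_all (ψ : G) (hψ : ∀ x, ψ (x + 1) = ψ x + 1) (h0 : ψ 0 = 0) : TB ψ := by
  obtain ⟨H, a, _, _, al, am, ag, _⟩ := exists_hh ψ 0 h0 hψ (by rw [hψ, h0])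
  rw [zero_add] at am ag
  have a0 : a 0 = 0 := al 0 le_rfl
  have a1 : a 1 = 1 := ag 1 le_rfl
  obtain ⟨α, δ, hα, hδ, K⟩ := a.ra_pos 0
  rw [a0] at K
  set x1 := min δ (1 / 2) with hx1
  have x1pos : 0 < x1 := lt_min hδ (by norm_num)
  have x1δ : x1 ≤ δ := min_le_left _ _
  have x1h : x1 ≤ 1 / 2 := min_le_right _ _
  have ax1 : a x1 = α * x1 := by rw [K x1 x1pos.le (by linarith)]; ring
  have y1pos : 0 < a x1 := by rw [ax1]; positivity
  have y1lt : a x1 < 1 := by
    rw [← a1, a.lt_iff]; linarith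
  obtain ⟨z, hz1, hz2⟩ : ∃ z, max x1 (a x1) < z ∧ z < 1 :=
    exists_between (max_lt (by linarith) y1lt)
  have hz3 : x1 < z := (le_max_left _ _).trans_lt hz1
  have hz4 : a x1 < z := (le_max_right _ _).trans_lt hz1
  obtain ⟨u, hu⟩ := exists_tent (x := 0) (y := a x1) (y' := x1) (z := z) y1pos hz4 x1pos hz3
  have huD : u ∈ D ((z - 1) / 2) := tent_mem y1pos hz4 x1pos hz3 (by linarith) (by linarith) hu
  set b := u * a with hb
  have bl : ∀ x, x ≤ x1 → b x = x := by
    intro x hx
    rw [hb, mul_apply]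
    rcases le_total x 0 with h | h
    · rw [al x h, hu.l x h]
    · have e1 : a x = α * x := by rw [K x h (by linarith)]; ring
      have e2 : 0 ≤ a x := by rw [e1]; positivity
      have e3 : a x ≤ a x1 := a.le_iff.2 hx
      rw [hu.m1 _ e2 e3, e1, ax1]; field_simp; ring
  have br : ∀ x, 1 ≤ x → b x = x := by
    intro x hx
    rw [hb, mul_apply, ag x hx, hu.r x (by linarith)]
  have hbD : b ∈ D (x1 / 2) := mem_D_of_supp (s := x1) (t := 1) (by linarith) (by linarith)
    (by linarith) bl br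
  have huS : u⁻¹ ∈ S 0 := (S 0).inv_mem (hu.mem_S le_rfl (by linarith))
  have hbS : b ∈ S 0 := ⟨fun x hx => bl x (by linarith), fun x hx => br x (by linarith)⟩
  obtain ⟨ψ₁, p1, p2⟩ := exists_perS huS
  obtain ⟨ψ₂, q1, q2⟩ := exists_perS hbS
  rw [zero_add] at p2 q2
  have hui : ∀ x, x ≤ 0 → u⁻¹ x = x := fun x hx => inv_fix _ (hu.l x hx)
  have hui2 : ∀ x, z ≤ x → u⁻¹ x = x := fun x hx => inv_fix _ (hu.r x hx)
  have t1 : TB ψ₁ := by
    refine D_TBS ((D ((z - 1) / 2)).inv_mem huD) ψ₁ p1 ?_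
    intro x h1 h2
    rcases le_total x 0 with h | h
    · rw [hui x h]
      have := p1 x
      rw [p2 (x + 1) (by linarith) (by linarith), hui2 _ (by linarith)] at this
      linarith
    · exact p2 x h (by linarith)
  have t2 : TB ψ₂ := by
    refine D_TBS hbD ψ₂ q1 ?_
    intro x h1 h2
    rcases le_total x 1 with h | h
    · exact q2 x (by linarith) h
    · rw [br x h]
      have := q1 (x - 1)
      rw [sub_add_cancel, q2 (x - 1) (by linarith) (by linarith), bl _ (by linarith)] at this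
      linarith
  have : ψ = ψ₁ * ψ₂ := by
    refine per_unique (L := 1) (s := 0) one_pos hψ
      (fun x => by rw [mul_apply, q1, p1, mul_apply]) ?_
    intro x hx1 hx2
    rw [zero_add] at hx2
    have e1 := S_map hbS hx1 (by linarith)
    rw [zero_add] at e1
    rw [mul_apply, q2 x hx1 hx2, p2 _ e1.1 e1.2, ← am x hx1 hx2, hb, mul_apply, inv_apply_self]
  rw [this]
  exact TB.mul t1 t2 p1

end G

end Pool.Agent.Helper237
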