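import Pool.Agent.Helper237.Twist

namespace Pool.Agent.Helper237

open Set Filter Topology commutatorElement

namespace G

/-- elements supported in the unit interval with left end c -/
def S (c : ℝ) : Subgroup G where
  carrier := {a | (∀ x, x ≤ c → a x = x) ∧ ∀ x, c + 1 ≤ x → a x = x}
  one_mem' := ⟨fun _ _ => rfl, fun _ _ => rfl⟩
  mul_mem' := by
    rintro a b ⟨h1, h2⟩ ⟨h3, h4⟩
    exact ⟨fun x hx => by rw [mul_apply, h3 x hx, h1 x hx],
      fun x hx => by rw [mul_apply, h4 x hx, h2 x hx]⟩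
  inv_mem' := by
    rintro a ⟨h1, h2⟩
    exact ⟨fun x hx => inv_fix _ (h1 x hx), fun x hx => inv_fix _ (h2 x hx)⟩

theorem mem_S {c : ℝ} {a : G} : a ∈ S c ↔ (∀ x, x ≤ c → a x = x) ∧ ∀ x, c + 1 ≤ x → a x = x :=
  Iff.rfl

def D (c : ℝ) : Subgroup G := ⁅S c, S c⁆

theorem D_le_S (c : ℝ) : D c ≤ S c := Subgroup.commutator_le.2 fun a ha b hb => by
  rw [commutatorElement_def]
  exact (S c).mul_mem ((S c).mul_mem ((S c).mul_mem ha hb) ((S c).inv_mem ha)) ((S c).inv_mem hb)

/-- the periodic extensions are twist blocks -/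
def TBS (c : ℝ) (g : G) : Prop :=
  ∀ ψ : G, (∀ x, ψ (x + 1) = ψ x + 1) → (∀ x, c ≤ x → x ≤ c + 1 → ψ x = g x) → TB ψ

theorem S_map {c : ℝ} {g : G} (hg : g ∈ S c) {x : ℝ} (h1 : c ≤ x) (h2 : x ≤ c + 1) :
    c ≤ g x ∧ g x ≤ c + 1 := by
  rw [mem_S] at hg
  constructor
  · rw [← hg.1 c le_rfl, g.le_iff]; exact h1
  · rw [← hg.2 (c + 1) le_rfl, g.le_iff]; exact h2

theorem exists_perS {c : ℝ} {g : G} (hg : g ∈ S c) :
    ∃ P : G, (∀ x, P (x + 1) = P x + 1) ∧ ∀ x, c ≤ x → x ≤ c + 1 → P x = g x := by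
  rw [mem_S] at hg
  obtain ⟨H, h1, h2⟩ := exists_per g 1 c one_pos (by rw [hg.1 c le_rfl, hg.2 (c + 1) le_rfl])
  exact ⟨H, h2, h1⟩

theorem TBS_one (c : ℝ) : TBS c 1 := by
  intro ψ h1 h2
  have : ψ = 1 := per_unique (L := 1) (s := c) one_pos h1 (fun x => rfl) h2
  rw [this]; exact TB_one

theorem TBS_mul {c : ℝ} {g₁ g₂ : G} (h₁ : TBS c g₁) (h₂ : TBS c g₂) (m₁ : g₁ ∈ S c)
    (m₂ : g₂ ∈ S c) : TBS c (g₁ * g₂) := by
  intro ψ hψ hψ2
  obtain ⟨P₁, a1, a2⟩ := exists_perS m₁
  obtain ⟨P₂, b1, b2⟩ := exists_perS m₂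
  have : ψ = P₁ * P₂ := by
    refine per_unique (L := 1) (s := c) one_pos hψ
      (fun x => by rw [mul_apply, b1, a1, mul_apply]) ?_
    intro x hx1 hx2
    have := S_map m₂ hx1 hx2
    rw [hψ2 x hx1 hx2, mul_apply, mul_apply, b2 x hx1 hx2, a2 _ this.1 this.2]
  rw [this]
  exact TB.mul (h₁ P₁ a1 a2) (h₂ P₂ b1 b2) a1

theorem TBS_comm {c : ℝ} {x y : G} (mx : x ∈ S c) (my : y ∈ S c) : TBS c ⁅x, y⁆ := by
  intro ψ hψ hψ2
  obtain ⟨X, a1, a2⟩ := exists_perS mx
  obtain ⟨Y, b1, b2⟩ := exists_perS my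
  have a3 := inv_addL a1
  have b3 := inv_addL b1
  have hXi : ∀ t, c ≤ t → t ≤ c + 1 → X⁻¹ t = x⁻¹ t := by
    intro t h1 h2
    have := S_map ((S c).inv_mem mx) h1 h2
    rw [inv_eq_iff, a2 _ this.1 this.2]; simp
  have hYi : ∀ t, c ≤ t → t ≤ c + 1 → Y⁻¹ t = y⁻¹ t := by
    intro t h1 h2
    have := S_map ((S c).inv_mem my) h1 h2
    rw [inv_eq_iff, b2 _ this.1 this.2]; simp
  have : ψ = (X⁻¹)⁻¹ * (Y⁻¹)⁻¹ * X⁻¹ * Y⁻¹ := by
    rw [inv_inv, inv_inv]
    refine per_unique (L := 1) (s := c) one_pos hψ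
      (fun x => by simp only [mul_apply]; rw [b3, a3, b1, a1]) ?_
    intro t ht1 ht2
    have m1 := S_map ((S c).inv_mem my) ht1 ht2
    have m2 := S_map ((S c).inv_mem mx) m1.1 m1.2
    have m3 := S_map my m2.1 m2.2
    rw [hψ2 t ht1 ht2, commutatorElement_def]
    simp only [mul_apply]
    rw [hYi t ht1 ht2, hXi _ m1.1 m1.2, b2 _ m2.1 m2.2, a2 _ m3.1 m3.2]
  rw [this]
  refine TB_comm Y⁻¹ X⁻¹ b3 a3 c ?_ ?_
  · rw [hYi c le_rfl (by linarith)]
    exact inv_fix _ ((mem_S.1 my).1 c le_rfl)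
  · rw [hXi c le_rfl (by linarith)]
    exact inv_fix _ ((mem_S.1 mx).1 c le_rfl)

theorem D_TBS {c : ℝ} {g : G} (hg : g ∈ D c) : TBS c g := by
  unfold D at hg
  rw [Subgroup.commutator_def] at hg
  have key : g ∈ S c ∧ TBS c g := by
    induction hg using Subgroup.closure_induction_left with
    | one => exact ⟨(S c).one_mem, TBS_one c⟩
    | mul_left x hx y hy ih =>
      obtain ⟨a, ha, b, hb, rfl⟩ := hx
      have hm : ⁅a, b⁆ ∈ S c := D_le_S c (Subgroup.commutator_mem_commutator ha hb)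
      exact ⟨(S c).mul_mem hm ih.1, TBS_mul (TBS_comm ha hb) ih.2 hm ih.1⟩
    | inv_mul_cancel x hx y hy ih =>
      obtain ⟨a, ha, b, hb, rfl⟩ := hx
      rw [commutatorElement_inv]
      have hm : ⁅b, a⁆ ∈ S c := D_le_S c (Subgroup.commutator_mem_commutator hb ha)
      exact ⟨(S c).mul_mem hm ih.1, TBS_mul (TBS_comm hb ha) ih.2 hm ih.1⟩
  exact key.2

theorem D_conj {c : ℝ} {g z : G} (hg : g ∈ D c) (hz : z ∈ S c) : z * g * z⁻¹ ∈ D c := by
  have h1 : z * g * z⁻¹ ∈ Subgroup.map (MulAut.conj z).toMonoidHom (D c) :=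
    ⟨g, hg, by simp [MulAut.conj_apply]⟩
  unfold D at h1 ⊢
  rw [Subgroup.map_commutator] at h1
  have h2 : Subgroup.map (MulAut.conj z).toMonoidHom (S c) ≤ S c := by
    rintro _ ⟨a, ha, rfl⟩
    simp only [MulEquiv.coe_toMonoidHom, MulAut.conj_apply]
    exact (S c).mul_mem ((S c).mul_mem hz ha) ((S c).inv_mem hz)
  exact Subgroup.commutator_mono h2 h2 h1

/-- a homeomorphism supported on an interval with one interior breakpoint -/
structure IsTent (g : G) (x y y' z : ℝ) : Prop where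
  l : ∀ t, t ≤ x → g t = t
  m1 : ∀ t, x ≤ t → t ≤ y → g t = x + (y' - x) / (y - x) * (t - x)
  m2 : ∀ t, y ≤ t → t ≤ z → g t = z - (z - y') / (z - y) * (z - t)
  r : ∀ t, z ≤ t → g t = t

theorem exists_tent {x y y' z : ℝ} (h1 : x < y) (h2 : y < z) (h3 : x < y') (h4 : y' < z) :
    ∃ g, IsTent g x y y' z := by
  have d1 : y - x ≠ 0 := by linarith
  have d2 : z - y ≠ 0 := by linarith
  have p1 : 0 < (y' - x) / (y - x) := div_pos (by linarith) (by linarith)
  have p2 : 0 < (z - y') / (z - y) := div_pos (by linarith) (by linarith)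
  set A1 := aff ((y' - x) / (y - x)) (x - (y' - x) / (y - x) * x) p1 with hA1
  set A2 := aff ((z - y') / (z - y)) (z - (z - y') / (z - y) * z) p2 with hA2
  have e1 : ∀ t, A1 t = x + (y' - x) / (y - x) * (t - x) := by
    intro t; rw [hA1, aff_apply]; ring
  have e2 : ∀ t, A2 t = z - (z - y') / (z - y) * (z - t) := by
    intro t; rw [hA2, aff_apply]; ring
  have g1 : A2 z = (1 : G) z := by rw [e2, one_apply]; ring
  have g2 : A1 y = (glue A2 1 z g1) y := by
    rw [glue_le h2.le, e1, e2]; field_simp; ring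
  have g3 : (1 : G) x = (glue A1 (glue A2 1 z g1) y g2) x := by
    rw [glue_le h1.le, e1, one_apply]; ring
  refine ⟨glue 1 (glue A1 (glue A2 1 z g1) y g2) x g3, ?_, ?_, ?_, ?_⟩
  · intro t ht; rw [glue_le ht, one_apply]
  · intro t ht ht'; rw [glue_ge ht, glue_le ht', e1]
  · intro t ht ht'; rw [glue_ge (by linarith), glue_ge ht, glue_le ht', e2]
  · intro t ht; rw [glue_ge (by linarith), glue_ge (by linarith), glue_ge ht, one_apply]

theorem IsTent.at_y {g : G} {x y y' z : ℝ} (h : IsTent g x y y' z) (h1 : x < y) : g y = y' := by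
  have : y - x ≠ 0 := by linarith
  rw [h.m1 y h1.le le_rfl]; field_simp; ring

theorem IsTent.mem_S {g : G} {x y y' z c : ℝ} (h : IsTent g x y y' z) (h1 : c ≤ x)
    (h2 : z ≤ c + 1) : g ∈ S c :=
  ⟨fun t ht => h.l t (by linarith), fun t ht => h.r t (by linarith)⟩

theorem tent_inv {g k : G} {x y y' z : ℝ} (hg : IsTent g x y y' z) (hk : IsTent k x y' y z)
    (h1 : x < y) (h2 : y < z) (h3 : x < y') (h4 : y' < z) : g = k⁻¹ := by
  rw [eq_inv_iff_mul_eq_one]
  have a1 : y - x ≠ 0 := by linarith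
  have a2 : z - y ≠ 0 := by linarith
  have a3 : y' - x ≠ 0 := by linarith
  have a4 : z - y' ≠ 0 := by linarith
  ext t
  rw [mul_apply, one_apply]
  rcases le_total t x with h | h
  · rw [hk.l t h, hg.l t h]
  rcases le_total t y' with h' | h'
  · have e1 : x ≤ k t := by rw [← hk.l x le_rfl, k.le_iff]; exact h
    have e2 : k t ≤ y := by rw [← hk.at_y h3, k.le_iff]; exact h'
    rw [hg.m1 _ e1 e2, hk.m1 t h h']; field_simp; ring
  rcases le_total t z with h'' | h''
  · have e1 : y ≤ k t := by rw [← hk.at_y h3, k.le_iff]; exact h'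
    have e2 : k t ≤ z := by rw [← hk.r z le_rfl, k.le_iff]; exact h''
    rw [hg.m2 _ e1 e2, hk.m2 t h' h'']; field_simp; ring
  · rw [hk.r t h'', hg.r t h'']

/-- the commutator identity for good tents -/
theorem tent_comm {u : G} {o Y Y' Z c : ℝ} (hY : 0 < Y) (hYY : Y < Y') (hYZ : Y' < Z)
    (hco : c ≤ o) (hZc : o + Z < c + 1)
    (hu : IsTent u (o + Y * Y' / Z) (o + Y) (o + Y') (o + Z)) : u ∈ D c := by
  have hZ : 0 < Z := by linarith
  have hY' : 0 < Y' := by linarith
  obtain ⟨C, hC1, hC2⟩ : ∃ C, o + Z < C ∧ C < c + 1 := exists_between hZc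
  have n1 : Y ≠ 0 := hY.ne'
  have n2 : Z ≠ 0 := hZ.ne'
  have n3 : Z - Y ≠ 0 := by linarith
  have n4 : C - (o + Y) ≠ 0 := by linarith
  have q1 : Y ^ 2 / Z < Y := by
    rw [div_lt_iff₀ hZ]; nlinarith
  have q0 : 0 < Y ^ 2 / Z := by positivity
  have q2 : Y * Y' / Z < Y := by
    rw [div_lt_iff₀ hZ]; nlinarith
  have q3 : 0 < Y * Y' / Z := by positivity
  have q4 : Y ^ 2 / Z < Y * Y' / Z := by
    rw [div_lt_div_iff_of_pos_right hZ]; nlinarith
  obtain ⟨g, hg⟩ := exists_tent (x := o) (y := o + Y) (y' := o + Z) (z := C)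
    (by linarith) (by linarith) (by linarith) hC1
  obtain ⟨h, hh⟩ := exists_tent (x := o) (y := o + Y ^ 2 / Z) (y' := o + Y * Y' / Z) (z := o + Y)
    (by linarith) (by linarith) (by linarith) (by linarith)
  have gm1 : ∀ t, o ≤ t → t ≤ o + Y → g t = o + Z / Y * (t - o) := by
    intro t h1 h2; rw [hg.m1 t h1 h2]; congr 2; congr 1 <;> ring
  have hm1 : ∀ t, o ≤ t → t ≤ o + Y ^ 2 / Z → h t = o + Y' / Y * (t - o) := by
    intro t h1 h2; rw [hh.m1 t h1 h2]; congr 2; field_simp; ring
  have hm2 : ∀ t, o + Y ^ 2 / Z ≤ t → t ≤ o + Y → h t = o + Y - (Z - Y') / (Z - Y) * (o + Y - t) := by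
    intro t h1 h2
    rw [hh.m2 t h1 h2]
    have : Y - Y ^ 2 / Z ≠ 0 := by linarith
    have e : o + Y - (o + Y * Y' / Z) = Y * (Z - Y') / Z := by field_simp; ring
    have e' : o + Y - (o + Y ^ 2 / Z) = Y * (Z - Y) / Z := by field_simp; ring
    rw [e, e']; congr 2; field_simp
  have um1 : ∀ t, o + Y * Y' / Z ≤ t → t ≤ o + Y →
      u t = o + Y' - (Y' * (Z - Y)) / (Y * (Z - Y')) * (o + Y - t) := by
    intro t h1 h2
    rw [hu.m1 t h1 h2]
    have n5 : Z - Y' ≠ 0 := by linarith
    have e : o + Y' - (o + Y * Y' / Z) = Y' * (Z - Y) / Z := by field_simp; ring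
    have e' : o + Y - (o + Y * Y' / Z) = Y * (Z - Y') / Z := by field_simp; ring
    rw [e, e']; field_simp; ring
  have um2 : ∀ t, o + Y ≤ t → t ≤ o + Z → u t = o + Z - (Z - Y') / (Z - Y) * (o + Z - t) := by
    intro t h1 h2
    rw [hu.m2 t h1 h2]; congr 2; congr 1 <;> ring
  have hgS : g ∈ S c := hg.mem_S hco hC2.le
  have hhS : h ∈ S c := hh.mem_S hco (by linarith)
  have key : u * h * g = g * h := by
    ext t
    simp only [mul_apply]
    rcases le_total t o with h1 | h1
    · rw [hg.l t h1, hh.l t h1, hu.l t (by linarith), hg.l t h1]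
    rcases le_total t (o + Y) with h2 | h2
    swap
    · have e1 : o + Z ≤ g t := by rw [← hg.at_y (by linarith), g.le_iff]; exact h2
      rw [hh.r _ (by linarith), hu.r _ e1, hh.r _ h2]
    have gt := gm1 t h1 h2
    have tt : t - o = Y / Z * (g t - o) := by rw [gt]; field_simp; ring
    rcases le_total (g t) (o + Y ^ 2 / Z) with h3 | h3
    · have e1 : o ≤ g t := by rw [← hg.l o le_rfl, g.le_iff]; exact h1
      have e2 : h (g t) = o + Y' / Y * (g t - o) := hm1 _ e1 h3
      have e3 : h (g t) ≤ o + Y * Y' / Z := by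
        rw [← hh.at_y (by linarith), h.le_iff]; exact h3
      have e4 : t ≤ o + Y ^ 2 / Z := by
        have : Y / Z * (g t - o) ≤ 1 * (g t - o) :=
          mul_le_mul_of_nonneg_right ((div_le_one hZ).2 (by linarith)) (by linarith)
        linarith
      have e5 : h t = o + Y' / Y * (t - o) := hm1 t h1 e4
      have e6 : h t ≤ o + Y := by rw [← hh.r _ le_rfl, h.le_iff]; exact h2
      have e7 : o ≤ h t := by rw [← hh.l _ le_rfl, h.le_iff]; exact h1
      rw [hu.l _ e3, e2, gm1 _ e7 e6, e5, gt]; field_simp; ring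
    rcases le_total (g t) (o + Y) with h4 | h4
    · have e2 := hm2 _ h3 h4
      have e3 : o + Y * Y' / Z ≤ h (g t) := by
        rw [← hh.at_y (by linarith), h.le_iff]; exact h3
      have e3' : h (g t) ≤ o + Y := by rw [← hh.r _ le_rfl, h.le_iff]; exact h4
      have e4 : t ≤ o + Y ^ 2 / Z := by
        have : Y / Z * (g t - o) ≤ Y / Z * Y :=
          mul_le_mul_of_nonneg_left (by linarith) (by positivity)
        have e : Y / Z * Y = Y ^ 2 / Z := by ring
        linarith
      have e5 : h t = o + Y' / Y * (t - o) := hm1 t h1 e4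
      have e6 : h t ≤ o + Y := by rw [← hh.r _ le_rfl, h.le_iff]; exact h2
      have e7 : o ≤ h t := by rw [← hh.l _ le_rfl, h.le_iff]; exact h1
      have n5 : Z - Y' ≠ 0 := by linarith
      rw [um1 _ e3 e3', e2, gm1 _ e7 e6, e5, gt]; field_simp; ring
    · have e2 : h (g t) = g t := hh.r _ h4
      have e3 : g t ≤ o + Z := by rw [← hg.at_y (by linarith), g.le_iff]; exact h2
      have e4 : o + Y ^ 2 / Z ≤ t := by
        have : Y / Z * Y ≤ Y / Z * (g t - o) :=
          mul_le_mul_of_nonneg_left (by linarith) (by positivity)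
        have e : Y / Z * Y = Y ^ 2 / Z := by ring
        linarith
      have e6 : h t ≤ o + Y := by rw [← hh.r _ le_rfl, h.le_iff]; exact h2
      have e7 : o ≤ h t := by rw [← hh.l _ le_rfl, h.le_iff]; exact h1
      rw [e2, um2 _ h4 e3, gm1 _ e7 e6, hm2 t e4 h2, gt]; field_simp; ring
  have : u = ⁅g, h⁆ := by
    rw [commutatorElement_def, ← key]; group
  rw [this]
  exact Subgroup.commutator_mem_commutator hgS hhS

theorem tent_good {u : G} {x y y' z c : ℝ} (h1 : x < y) (h2 : y < y') (h3 : y' < z)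
    (h4 : y + y' < x + z) (h5 : c ≤ x - (y - x) * (y' - x) / (x + z - y - y'))
    (h6 : z < c + 1) (hu : IsTent u x y y' z) : u ∈ D c := by
  set o := x - (y - x) * (y' - x) / (x + z - y - y') with ho
  have hd : 0 < x + z - y - y' := by linarith
  have hp : 0 < (y - x) * (y' - x) / (x + z - y - y') :=
    div_pos (mul_pos (by linarith) (by linarith)) hd
  have hz : z - o ≠ 0 := by linarith
  have hx : x = o + (y - o) * (y' - o) / (z - o) := by
    rw [eq_comm, ← eq_sub_iff_add_eq', div_eq_iff hz]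
    have : (x - o) * (x + z - y - y') = (y - x) * (y' - x) := by
      rw [ho]; field_simp; ring
    nlinarith [this]
  refine tent_comm (o := o) (Y := y - o) (Y' := y' - o) (Z := z - o) (by linarith) (by linarith)
    (by linarith) h5 (by linarith) ?_
  rw [← hx]
  simpa using hu

theorem tent_small {u : G} {x y y' z c : ℝ} (h1 : x < y) (h2 : y < y') (h3 : y' < z)
    (h5 : z - x < x - c) (h6 : 3 * (z - x) < c + 1 - x) (hu : IsTent u x y y' z) : u ∈ D c := by
  set Z := x + 3 * (z - x) with hZ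
  have hzZ : z < Z := by linarith
  obtain ⟨w, hw⟩ := exists_tent (x := x) (y := y) (y' := y') (z := Z) h1 (by linarith)
    (by linarith) (by linarith)
  have n1 : Z - y' ≠ 0 := by linarith
  have n1' : 0 < Z - y' := by linarith
  have n2 : Z - y ≠ 0 := by linarith
  have n3 : Z - z ≠ 0 := by linarith
  have n4 : z - y ≠ 0 := by linarith
  set z' := Z - (Z - z) * (Z - y) / (Z - y') with hz'
  have hzz : z' < z := by
    have : Z - z < (Z - z) * (Z - y) / (Z - y') := by
      rw [lt_div_iff₀ n1']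
      exact mul_lt_mul_of_pos_left (by linarith) (by linarith)
    linarith
  have hyz : y < z' := by
    have : (Z - z) * (Z - y) / (Z - y') < Z - y := by
      rw [div_lt_iff₀ n1', mul_comm]
      exact mul_lt_mul_of_pos_left (by linarith) (by linarith)
    linarith
  have n5 : z' - y ≠ 0 := by linarith
  have n6 : Z - z' ≠ 0 := by linarith
  obtain ⟨V, hV⟩ := exists_tent (x := y) (y := z') (y' := z) (z := Z) hyz (by linarith)
    (by linarith) hzZ
  have hZz' : (Z - z') * (Z - y') = (Z - z) * (Z - y) := by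
    rw [hz']; field_simp; ring
  have key : u * V = w := by
    ext t
    rw [mul_apply]
    rcases le_total t x with c1 | c1
    · rw [hV.l t (by linarith), hu.l t c1, hw.l t c1]
    rcases le_total t y with c2 | c2
    · rw [hV.l t c2, hu.m1 t c1 c2, hw.m1 t c1 c2]
    rcases le_total t z' with c3 | c3
    · have e1 : y ≤ V t := by rw [← hV.l y le_rfl, V.le_iff]; exact c2
      have e2 : V t ≤ z := by rw [← hV.at_y hyz, V.le_iff]; exact c3
      rw [hu.m2 _ e1 e2, hV.m1 t c2 c3, hw.m2 t c2 (by linarith)]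
      have e3 : z' - y = (z - y') * (Z - y) / (Z - y') := by
        rw [hz']; field_simp; ring
      have n7 : z - y' ≠ 0 := by linarith
      rw [e3]; field_simp; ring
    rcases le_total t Z with c4 | c4
    · have e1 : z ≤ V t := by rw [← hV.at_y hyz, V.le_iff]; exact c3
      rw [hu.r _ e1, hV.m2 t c3 c4, hw.m2 t c2 c4]
      have e3 : (Z - z) / (Z - z') = (Z - y') / (Z - y) := by
        rw [div_eq_div_iff n6 n2, ← hZz']; ring
      rw [e3]
    · rw [hV.r t c4, hu.r t (by linarith), hw.r t c4]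
  have hwD : w ∈ D c := by
    refine tent_good h1 h2 (by linarith) (by linarith) ?_ (by linarith) hw
    have : (y - x) * (y' - x) / (x + Z - y - y') ≤ z - x := by
      rw [div_le_iff₀ (by linarith)]
      nlinarith
    linarith
  have hVD : V ∈ D c := by
    refine tent_good hyz hzz hzZ (by linarith) ?_ (by linarith) hV
    have : (z' - y) * (z - y) / (y + Z - z' - z) ≤ z - x := by
      rw [div_le_iff₀ (by linarith)]
      nlinarith
    linarith
  have : u = w * V⁻¹ := by rw [← key]; group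
  rw [this]
  exact (D c).mul_mem hwD ((D c).inv_mem hVD)

theorem tent_up {u : G} {x y y' z c : ℝ} (h1 : x < y) (h2 : y < y') (h3 : y' < z)
    (h5 : c < x) (h6 : z < c + 1) (hu : IsTent u x y y' z) : u ∈ D c := by
  obtain ⟨C, hC1, hC2⟩ : ∃ C, z < C ∧ C < c + 1 := exists_between h6
  have hl : 0 < z - x := by linarith
  obtain ⟨e, he0, he1, he2, he3⟩ : ∃ e : ℝ, 0 < e ∧ e ≤ 1 ∧ e * (z - x) < x - c ∧
      3 * (e * (z - x)) < c + 1 - x := by
    have p1 : 0 < (x - c) / (z - x) := div_pos (by linarith) hl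
    have p2 : 0 < (c + 1 - x) / (3 * (z - x)) := div_pos (by linarith) (by linarith)
    refine ⟨min 1 (min ((x - c) / (z - x)) ((c + 1 - x) / (3 * (z - x)))) / 2, ?_, ?_, ?_, ?_⟩
    · have := lt_min one_pos (lt_min p1 p2)
      linarith
    · have := min_le_left 1 (min ((x - c) / (z - x)) ((c + 1 - x) / (3 * (z - x))))
      linarith
    · have a := (min_le_right 1 (min ((x - c) / (z - x)) ((c + 1 - x) / (3 * (z - x))))).trans
        (min_le_left _ _)
      have : min 1 (min ((x - c) / (z - x)) ((c + 1 - x) / (3 * (z - x)))) / 2 <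
        (x - c) / (z - x) := by linarith
      rwa [lt_div_iff₀ hl] at this
    · have a := (min_le_right 1 (min ((x - c) / (z - x)) ((c + 1 - x) / (3 * (z - x))))).trans
        (min_le_right _ _)
      have : min 1 (min ((x - c) / (z - x)) ((c + 1 - x) / (3 * (z - x)))) / 2 <
        (c + 1 - x) / (3 * (z - x)) := by linarith
      rw [lt_div_iff₀ (by linarith)] at this
      linarith
  have hez : e * (z - x) ≤ z - x := by nlinarith
  have n1 : z - x ≠ 0 := by linarith
  have n2 : y - x ≠ 0 := by linarith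
  have n3 : z - y ≠ 0 := by linarith
  have n4 : e ≠ 0 := he0.ne'
  have pe1 : 0 < e * (z - x) := by positivity
  have pe2 : e * (y - x) < e * (y' - x) := mul_lt_mul_of_pos_left (by linarith) he0
  have pe3 : e * (y' - x) < e * (z - x) := mul_lt_mul_of_pos_left (by linarith) he0
  have pe4 : 0 < e * (y - x) := mul_pos he0 (by linarith)
  obtain ⟨ζ, hζ⟩ := exists_tent (x := x) (y := z) (y' := x + e * (z - x)) (z := C)
    (by linarith) hC1 (by linarith) (by linarith)
  obtain ⟨U, hU⟩ := exists_tent (x := x) (y := x + e * (y - x)) (y' := x + e * (y' - x))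
    (z := x + e * (z - x)) (by linarith) (by linarith) (by linarith) (by linarith)
  have ζm : ∀ t, x ≤ t → t ≤ z → ζ t = x + e * (t - x) := by
    intro t a b; rw [hζ.m1 t a b]; congr 2; field_simp; ring
  have hUD : U ∈ D c := by
    refine tent_small (by linarith) (by linarith) (by linarith) ?_ ?_ hU
    · linarith
    · linarith
  have key : ζ * u = U * ζ := by
    ext s
    simp only [mul_apply]
    rcases le_total s x with c1 | c1
    · rw [hu.l s c1, hζ.l s c1, hU.l s c1]
    rcases le_total s y with c2 | c2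
    · have e1 : x ≤ u s := by rw [← hu.l x le_rfl, u.le_iff]; exact c1
      have e2 : u s ≤ z := by
        rw [← hu.r z le_rfl, u.le_iff]; linarith
      rw [ζm _ e1 e2, ζm s c1 (by linarith), hu.m1 s c1 c2, hU.m1]
      · field_simp; ring
      · nlinarith
      · nlinarith
    rcases le_total s z with c3 | c3
    · have e1 : x ≤ u s := by rw [← hu.l x le_rfl, u.le_iff]; exact c1
      have e2 : u s ≤ z := by
        rw [← hu.r z le_rfl, u.le_iff]; linarith
      rw [ζm _ e1 e2, ζm s c1 (by linarith), hu.m2 s c2 c3, hU.m2]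
      · have n5 : e * (z - x) - e * (y - x) ≠ 0 := by linarith
        have : x + e * (z - x) - (x + e * (y - x)) = e * (z - y) := by ring
        rw [this]
        field_simp; ring
      · nlinarith
      · nlinarith
    · have e1 : x + e * (z - x) ≤ ζ s := by
        rw [← ζm z (by linarith) le_rfl, ζ.le_iff]; exact c3
      rw [hu.r s c3, hU.r _ e1]
  have : u = ζ⁻¹ * U * (ζ⁻¹)⁻¹ := by
    rw [inv_inv, mul_assoc, ← key]; group
  rw [this]
  exact D_conj hUD ((S c).inv_mem (hζ.mem_S h5.le hC2.le))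

theorem tent_mem {u : G} {x y y' z c : ℝ} (h1 : x < y) (h2 : y < z) (h3 : x < y') (h4 : y' < z)
    (h5 : c < x) (h6 : z < c + 1) (hu : IsTent u x y y' z) : u ∈ D c := by
  rcases lt_trichotomy y y' with h | h | h
  · exact tent_up h1 h h4 h5 h6 hu
  · subst h
    have : u = 1 := by
      ext t
      rw [one_apply]
      rcases le_total t x with c1 | c1
      · exact hu.l t c1
      rcases le_total t y with c2 | c2
      · have : y - x ≠ 0 := by linarith
        rw [hu.m1 t c1 c2, div_self this]; ring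
      rcases le_total t z with c3 | c3
      · have : z - y ≠ 0 := by linarith
        rw [hu.m2 t c2 c3, div_self this]; ring
      · exact hu.r t c3
    rw [this]; exact (D c).one_mem
  · obtain ⟨k, hk⟩ := exists_tent (x := x) (y := y') (y' := y) (z := z) h3 h4 h1 h2
    rw [tent_inv hu hk h1 h2 h3 h4]
    exact (D c).inv_mem (tent_up h3 h h2 h5 h6 hk)

end G

end Pool.Agent.Helper237
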