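import Pool.Agent.Helper237.Asm

namespace Pool.Agent.Helper237

open Set Filter Topology

namespace G

/-- twist blocks -/
def TB (ψ : G) : Prop := ∃ (Ξ U : G) (K : ℕ) (X : ℝ), 1 ≤ K ∧ (∀ x, x ≤ 80 → Ξ x = x) ∧
  (∀ x, X ≤ x → Ξ x = ψ x) ∧ (∀ x, x ≤ 80 → U x = x) ∧
  (∀ x, 66 * (K : ℝ) + 17 ≤ x → U x = x) ∧ Ξ * tr 1 * Ξ⁻¹ = U * tr 1 * E * U⁻¹ * E⁻¹

theorem TB_one : TB 1 :=
  ⟨1, 1, 1, 0, le_rfl, fun _ _ => rfl, fun _ _ => rfl, fun _ _ => rfl, fun _ _ => rfl, by group⟩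

theorem E17K (K : ℕ) : E (66 * K + 17) = 66 * K + 16 := by
  have := E_addk K 17
  push_cast at this
  rw [add_comm, this, E_b (by norm_num) (by norm_num)]; ring

theorem E80K (K : ℕ) : E (66 * K + 80) = 66 * K + 79 := by
  have := E_addk K 80
  push_cast at this
  rw [add_comm, this, E_a2 (by norm_num) (by norm_num)]; ring

theorem TB_aux {Ξ U : G} {K : ℕ} (hU : ∀ x, 66 * (K : ℝ) + 17 ≤ x → U x = x)
    (h : Ξ * tr 1 * Ξ⁻¹ = U * tr 1 * E * U⁻¹ * E⁻¹) {y : ℝ} (hy : 66 * (K : ℝ) + 16 ≤ y) :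
    (Ξ * tr 1 * Ξ⁻¹) y = y + 1 := by
  rw [h]
  simp only [mul_apply]
  have e1 : 66 * (K : ℝ) + 17 ≤ E⁻¹ y := by rw [le_inv_iff, E17K]; exact hy
  rw [inv_fix _ (hU _ e1), apply_inv_self, tr_apply, hU _ (by linarith)]

theorem sh_mul (k : ℕ) (A B : G) : sh k (A * B) = sh k A * sh k B := by
  unfold sh; group

theorem sh_inv (k : ℕ) (A : G) : sh k A⁻¹ = (sh k A)⁻¹ := by
  unfold sh; group

theorem sh_tr (k : ℕ) (t : ℝ) : sh k (tr t) = tr t := by
  ext x; rw [sh_apply, tr_apply, tr_apply]; ring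

theorem sh_E (k : ℕ) : sh k E = E := by
  unfold sh; rw [← E_comm_tr]; group

theorem TB.mul {ψ₁ ψ₂ : G} (h₂ : TB ψ₂) (h₁ : TB ψ₁) (hp : ∀ x, ψ₂ (x + 1) = ψ₂ x + 1) :
    TB (ψ₂ * ψ₁) := by
  obtain ⟨Ξ₁, U₁, K₁, X₁, hK₁, a1, a2, a3, a4, a5⟩ := h₁
  obtain ⟨Ξ₂, U₂, K₂, X₂, hK₂, b1, b2, b3, b4, b5⟩ := h₂
  have hK₁' : (1 : ℝ) ≤ K₁ := by exact_mod_cast hK₁
  have hK₂' : (1 : ℝ) ≤ K₂ := by exact_mod_cast hK₂
  have c1 : ∀ x, x ≤ 66 * (K₁ : ℝ) + 80 → sh K₁ Ξ₂ x = x := by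
    intro x hx; rw [sh_apply, b1 _ (by linarith)]; ring
  have c3 : ∀ x, x ≤ 66 * (K₁ : ℝ) + 80 → sh K₁ U₂ x = x := by
    intro x hx; rw [sh_apply, b3 _ (by linarith)]; ring
  have c5 : sh K₁ Ξ₂ * tr 1 * (sh K₁ Ξ₂)⁻¹ = sh K₁ U₂ * tr 1 * E * (sh K₁ U₂)⁻¹ * E⁻¹ := by
    have := congrArg (sh K₁) b5
    simpa only [sh_mul, sh_inv, sh_tr, sh_E] using this
  have sψ : sh K₁ ψ₂ = ψ₂ := by
    ext x
    rw [sh_apply]
    have := addk (L := 1) hp (66 * K₁) (x - 66 * K₁)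
    push_cast at this
    rw [one_mul, sub_add_cancel] at this
    exact this.symm
  refine ⟨sh K₁ Ξ₂ * Ξ₁, sh K₁ U₂ * U₁, K₁ + K₂, max X₁ (ψ₁⁻¹ (X₂ + 66 * K₁)), by lia,
    ?_, ?_, ?_, ?_, ?_⟩
  · intro x hx
    rw [mul_apply, a1 x hx, c1 x (by linarith)]
  · intro x hx
    have h1 : X₁ ≤ x := (le_max_left _ _).trans hx
    have h2 : ψ₁⁻¹ (X₂ + 66 * K₁) ≤ x := (le_max_right _ _).trans hx
    rw [inv_le_iff] at h2
    rw [mul_apply, mul_apply, a2 x h1, sh_apply, b2 _ (by linarith), ← sh_apply, sψ]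
  · intro x hx
    rw [mul_apply, a3 x hx, c3 x (by linarith)]
  · intro x hx
    push_cast at hx
    rw [mul_apply, a4 x (by linarith), sh_apply, b4 _ (by linarith)]; ring
  · ext y
    have hV : ∀ y, y ≤ 66 * (K₁ : ℝ) + 79 → (Ξ₁ * tr 1 * Ξ₁⁻¹) y ≤ 66 * (K₁ : ℝ) + 80 := by
      intro y hy
      have e1 := (Ξ₁ * tr 1 * Ξ₁⁻¹).le_iff.2 hy
      rw [TB_aux a4 a5 (y := 66 * (K₁ : ℝ) + 79) (by linarith)] at e1
      linarith
    have L : ∀ y, (sh K₁ Ξ₂ * Ξ₁ * tr 1 * (sh K₁ Ξ₂ * Ξ₁)⁻¹) y =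
        sh K₁ Ξ₂ ((Ξ₁ * tr 1 * Ξ₁⁻¹) ((sh K₁ Ξ₂)⁻¹ y)) := by
      intro y; rw [mul_inv_rev]; rfl
    rw [L, mul_inv_rev]
    rcases le_total y (66 * (K₁ : ℝ) + 79) with h | h
    · rw [inv_fix _ (c1 y (by linarith)), c1 _ (hV y h)]
      have e1 : E⁻¹ y ≤ 66 * (K₁ : ℝ) + 80 := by rw [inv_le_iff, E80K]; exact h
      have h2 := hV y h
      rw [a5] at h2 ⊢
      simp only [mul_apply] at h2 ⊢
      rw [inv_fix _ (c3 _ e1), c3 _ h2]
    · have e0 : 66 * (K₁ : ℝ) + 79 ≤ (sh K₁ Ξ₂)⁻¹ y := by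
        rw [le_inv_iff, c1 _ (by linarith)]; exact h
      rw [TB_aux a4 a5 (by linarith)]
      have e1 : sh K₁ Ξ₂ ((sh K₁ Ξ₂)⁻¹ y + 1) = (sh K₁ Ξ₂ * tr 1 * (sh K₁ Ξ₂)⁻¹) y := by
        simp only [mul_apply, tr_apply]
      rw [e1, c5]
      simp only [mul_apply]
      have e2 : 66 * (K₁ : ℝ) + 80 ≤ E⁻¹ y := by rw [le_inv_iff, E80K]; exact h
      have e3 : 66 * (K₁ : ℝ) + 80 ≤ (sh K₁ U₂)⁻¹ (E⁻¹ y) := by
        rw [le_inv_iff, c3 _ le_rfl]; exact e2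
      rw [inv_fix U₁ (a4 _ (by linarith : 66 * (K₁ : ℝ) + 17 ≤ (sh K₁ U₂)⁻¹ (E⁻¹ y)))]
      have e4 : 66 * (K₁ : ℝ) + 79 ≤ E ((sh K₁ U₂)⁻¹ (E⁻¹ y)) := by
        rw [← E80K, E.le_iff]; exact e3
      rw [tr_apply, a4 _ (by linarith)]

/-- raising the number of periods -/
theorem TB.enlarge {ψ : G} (h : TB ψ) (X₀ : ℝ) : ∃ (Ξ U : G) (K : ℕ), 1 ≤ K ∧
    (∀ x, x ≤ 80 → Ξ x = x) ∧ X₀ ≤ 66 * (K : ℝ) ∧ 
    (∀ x, 66 * (K : ℝ) ≤ x → Ξ x = ψ x) ∧ (∀ x, x ≤ 80 → U x = x) ∧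
    (∀ x, 66 * (K : ℝ) + 17 ≤ x → U x = x) ∧ Ξ * tr 1 * Ξ⁻¹ = U * tr 1 * E * U⁻¹ * E⁻¹ := by
  obtain ⟨Ξ, U, K, X, hK, a1, a2, a3, a4, a5⟩ := h
  obtain ⟨n, hn⟩ := exists_nat_gt (max X X₀)
  have h1 : X < n := (le_max_left _ _).trans_lt hn
  have h2 : X₀ < n := (le_max_right _ _).trans_lt hn
  have h3 : (0 : ℝ) ≤ n := Nat.cast_nonneg n
  have h4 : (0 : ℝ) ≤ K := Nat.cast_nonneg K
  refine ⟨Ξ, U, K + n, by lia, a1, ?_, ?_, a3, ?_, a5⟩
  · push_cast; linarith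
  · intro x hx
    push_cast at hx
    exact a2 x (by linarith)
  · intro x hx
    push_cast at hx
    exact a4 x (by linarith)

/-- conjugation only depends on the values on the support -/
theorem conj_congr {X Y g : G} {s t : ℝ} (hs : ∀ x, x ≤ s → g x = x) (ht : ∀ x, t ≤ x → g x = x)
    (hst : s ≤ t) (hXY : ∀ x, s ≤ x → x ≤ t → X x = Y x) : X * g * X⁻¹ = Y * g * Y⁻¹ := by
  ext y
  simp only [mul_apply]
  obtain ⟨x, rfl⟩ := X.surj y
  rw [inv_apply_self]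
  rcases lt_or_ge x s with h | h
  · have e1 : Y⁻¹ (X x) < s := by
      rw [inv_lt_iff, ← hXY s le_rfl hst, X.lt_iff]; exact h
    rw [hs _ h.le, hs _ e1.le, apply_inv_self]
  rcases lt_or_ge t x with h' | h'
  · have e1 : t < Y⁻¹ (X x) := by
      rw [lt_inv_iff, ← hXY t hst le_rfl, X.lt_iff]; exact h'
    rw [ht _ h'.le, ht _ e1.le, apply_inv_self]
  · have e1 : Y⁻¹ (X x) = x := by rw [inv_eq_iff, hXY x h h']
    have e2 : s ≤ g x := by
      rw [← hs s le_rfl, g.le_iff]; exact h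
    have e3 : g x ≤ t := by
      rw [← ht t le_rfl, g.le_iff]; exact h'
    rw [e1, hXY _ e2 e3]

theorem comm_disj {f g : G} {t : ℝ} (hf : ∀ x, t ≤ x → f x = x) (hg : ∀ x, x ≤ t → g x = x) :
    f * g = g * f := by
  ext x
  simp only [mul_apply]
  rcases le_total x t with h | h
  · have : f x ≤ t := by rw [← hf t le_rfl, f.le_iff]; exact h
    rw [hg x h, hg _ this]
  · have : t ≤ g x := by rw [← hg t le_rfl, g.le_iff]; exact h
    rw [hf x h, hf _ this]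

/-- a periodic map switched on at a fixed point, and one period of it -/
theorem exists_hh (P : G) (s : ℝ) (h : P s = s) (hp : ∀ x, P (x + 1) = P x + 1)
    (h' : P (s + 1) = s + 1) : ∃ H a : G, (∀ x, x ≤ s → H x = x) ∧ (∀ x, s ≤ x → H x = P x) ∧
      (∀ x, x ≤ s → a x = x) ∧ (∀ x, s ≤ x → x ≤ s + 1 → a x = P x) ∧
      (∀ x, s + 1 ≤ x → a x = x) ∧ H * tr 1 = a * tr 1 * H := by
  have g1 : (1 : G) s = P s := by rw [one_apply, h]
  have g2 : (glue 1 P s g1) (s + 1) = (1 : G) (s + 1) := by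
    rw [glue_ge (by linarith), h', one_apply]
  refine ⟨glue 1 P s g1, glue (glue 1 P s g1) 1 (s + 1) g2, ?_, ?_, ?_, ?_, ?_, ?_⟩
  · intro x hx; rw [glue_le hx, one_apply]
  · intro x hx; rw [glue_ge hx]
  · intro x hx; rw [glue_le (by linarith), glue_le hx, one_apply]
  · intro x hx hx'; rw [glue_le hx', glue_ge hx]
  · intro x hx; rw [glue_ge hx, one_apply]
  · ext x
    simp only [mul_apply, tr_apply]
    rcases le_total (x + 1) s with h1 | h1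
    · rw [glue_le h1, glue_le (c := s) (show x ≤ s by linarith), one_apply, one_apply,
        glue_le (by linarith), glue_le h1, one_apply]
    rcases le_total x s with h2 | h2
    · rw [glue_ge h1, glue_le (c := s) h2, one_apply, glue_le (by linarith), glue_ge h1]
    · have h3 : s ≤ P x := by rw [← h, P.le_iff]; exact h2
      rw [glue_ge h1, glue_ge (c := s) h2, hp, glue_ge (by linarith), one_apply]

theorem TE_eq {x : ℝ} (h1 : 90 ≤ x) (h2 : x ≤ 132) : (tr 1 * E) x = tr 7 x := by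
  rw [mul_apply, E_c2 h1 h2, tr_apply, tr_apply]; ring

theorem translate_aux {A a α : G} {s : ℝ} (hA : ∀ x, A (x + 1) = A x + 1)
    (hAs : A s = s) (hs : 90 ≤ s) (hs' : s ≤ 92)
    (al : ∀ x, x ≤ s → a x = x) (am : ∀ x, s ≤ x → x ≤ s + 1 → a x = A x)
    (ag : ∀ x, s + 1 ≤ x → a x = x)
    (bl : ∀ x, x ≤ s + 7 → α x = x) (bm : ∀ x, s + 7 ≤ x → x ≤ s + 7 + 1 → α x = A⁻¹ x)
    (bg : ∀ x, s + 7 + 1 ≤ x → α x = x) :
    (tr 1 * E) * a * (tr 1 * E)⁻¹ = α⁻¹ := by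
  rw [conj_congr (Y := tr 7) (s := s) (t := s + 1) al ag
    (by linarith) (fun x hx1 hx2 => TE_eq (by linarith) (by linarith))]
  rw [eq_inv_iff_mul_eq_one]
  ext x
  simp only [mul_apply, tr_apply, tr_inv_apply, one_apply]
  have hAk : ∀ (k : ℤ) x, A (x + k) = A x + k := by
    intro k x
    have := addk (L := 1) hA k x
    rwa [one_mul] at this
  have hA7 : A (s + 7) = s + 7 := by
    have := hAk 7 s
    push_cast at this
    rw [this, hAs]
  have hA8 : A (s + 7 + 1) = s + 7 + 1 := by rw [hA, hA7]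
  rcases le_total x (s + 7) with h | h
  · rw [bl x h, al _ (by linarith)]; ring
  rcases le_total x (s + 7 + 1) with h' | h'
  · have e1 : s + 7 ≤ A⁻¹ x := by rw [le_inv_iff, hA7]; exact h
    have e2 : A⁻¹ x ≤ s + 7 + 1 := by rw [inv_le_iff, hA8]; exact h'
    rw [bm x h h', am _ (by linarith) (by linarith)]
    have := hAk (-7) (A⁻¹ x)
    push_cast at this
    rw [← sub_eq_add_neg, apply_inv_self] at this
    rw [this]; ring
  · rw [bg x h', ag _ (by linarith)]; ring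

theorem TB_comm_aux (A B : G) (hA : ∀ x, A (x + 1) = A x + 1) (hB : ∀ x, B (x + 1) = B x + 1)
    (c : ℝ) (hc : 90 ≤ c) (hc' : c ≤ 91) (hAc : A c = c) (hBc : B c = c) :
    TB (B⁻¹ * A⁻¹ * B * A) := by
  have hA' := inv_addL hA
  have hB' := inv_addL hB
  have fixk : ∀ P : G, (∀ x, P (x + 1) = P x + 1) → P c = c → ∀ k : ℕ, P (c + k) = c + k := by
    intro P hP hPc k
    have := addk (L := 1) hP k c
    push_cast at this
    rw [one_mul, hPc] at this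
    exact this
  have hA1 : A (c + 1) = c + 1 := by simpa using fixk A hA hAc 1
  have hB1 : B (c + 1) = c + 1 := by simpa using fixk B hB hBc 1
  have hB2 : B (c + 1 + 1) = c + 1 + 1 := by rw [hB, hB1]
  have hA7 : A⁻¹ (c + 7) = c + 7 := inv_fix _ (by simpa using fixk A hA hAc 7)
  have hA8 : A⁻¹ (c + 7 + 1) = c + 7 + 1 := by rw [hA', hA7]
  have hB8 : B⁻¹ (c + 1 + 7) = c + 1 + 7 := inv_fix _ (by
    have := fixk B hB hBc 8
    push_cast at this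
    rw [show c + 1 + 7 = c + 8 by ring, this])
  have hB9 : B⁻¹ (c + 1 + 7 + 1) = c + 1 + 7 + 1 := by rw [hB', hB8]
  obtain ⟨h0, a0, h0l, h0g, a0l, a0m, a0g, r0⟩ := exists_hh A c hAc hA hA1
  obtain ⟨h1, b1, h1l, h1g, b1l, b1m, b1g, r1⟩ := exists_hh B (c + 1) hB1 hB hB2
  obtain ⟨h7, α7, h7l, h7g, α7l, α7m, α7g, r7⟩ := exists_hh A⁻¹ (c + 7) hA7 hA' hA8
  obtain ⟨h8, β8, h8l, h8g, β8l, β8m, β8g, r8⟩ := exists_hh B⁻¹ (c + 1 + 7) hB8 hB' hB9
  have c01 : a0 * h1 = h1 * a0 := comm_disj (t := c + 1) (fun x hx => a0g x (by linarith))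
    (fun x hx => h1l x (by linarith))
  have c07 : a0 * h7 = h7 * a0 := comm_disj (t := c + 1) (fun x hx => a0g x (by linarith))
    (fun x hx => h7l x (by linarith))
  have c08 : a0 * h8 = h8 * a0 := comm_disj (t := c + 1) (fun x hx => a0g x (by linarith))
    (fun x hx => h8l x (by linarith))
  have c17 : b1 * h7 = h7 * b1 := comm_disj (t := c + 2) (fun x hx => b1g x (by linarith))
    (fun x hx => h7l x (by linarith))
  have c18 : b1 * h8 = h8 * b1 := comm_disj (t := c + 2) (fun x hx => b1g x (by linarith))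
    (fun x hx => h8l x (by linarith))
  have c78 : α7 * h8 = h8 * α7 := comm_disj (t := c + 8) (fun x hx => α7g x (by linarith))
    (fun x hx => h8l x (by linarith))
  have cab : α7 * β8 = β8 * α7 := comm_disj (t := c + 8) (fun x hx => α7g x (by linarith))
    (fun x hx => β8l x (by linarith))
  have ta := translate_aux hA hAc hc (by linarith) a0l a0m a0g α7l α7m α7g
  have tb := translate_aux hB hB1 (by linarith) (by linarith) b1l b1m b1g β8l β8m β8g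
  refine ⟨h8 * h7 * h1 * h0, a0 * b1, 2, c + 8, by norm_num, ?_, ?_, ?_, ?_, ?_⟩
  · intro x hx
    simp only [mul_apply]
    rw [h0l x (by linarith), h1l x (by linarith), h7l x (by linarith), h8l x (by linarith)]
  · intro x hx
    have hA8' : A (c + 8) = c + 8 := by simpa using fixk A hA hAc 8
    have hB8' : B (c + 8) = c + 8 := by simpa using fixk B hB hBc 8
    have q0 : c + 8 ≤ A x := by rw [← hA8', A.le_iff]; exact hx
    have q1 : c + 8 ≤ B (A x) := by rw [← hB8', B.le_iff]; exact q0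
    have q2 : c + 8 ≤ A⁻¹ (B (A x)) := by rw [le_inv_iff, hA8']; exact q1
    simp only [mul_apply]
    rw [h0g x (by linarith), h1g _ (by linarith), h7g _ (by linarith), h8g _ (by linarith)]
  · intro x hx
    simp only [mul_apply]
    rw [b1l x (by linarith), a0l x (by linarith)]
  · intro x hx
    norm_num at hx
    simp only [mul_apply]
    rw [b1g x (by linarith), a0g x (by linarith)]
  · set T := tr 1 with hT
    have lhs : (h8 * h7 * h1 * h0) * T * (h8 * h7 * h1 * h0)⁻¹ = a0 * b1 * α7 * β8 * T := by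
      rw [mul_inv_eq_iff_eq_mul]
      calc h8 * h7 * h1 * h0 * T = h8 * h7 * h1 * (h0 * T) := by group
        _ = h8 * h7 * (h1 * a0) * T * h0 := by rw [r0]; group
        _ = h8 * (h7 * a0) * (h1 * T) * h0 := by rw [← c01]; group
        _ = (h8 * a0) * h7 * b1 * T * h1 * h0 := by rw [← c07, r1]; group
        _ = a0 * h8 * (h7 * b1) * T * h1 * h0 := by rw [← c08]; group
        _ = a0 * (h8 * b1) * (h7 * T) * h1 * h0 := by rw [← c17]; group
        _ = a0 * b1 * (h8 * α7) * T * h7 * h1 * h0 := by rw [← c18, r7]; group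
        _ = a0 * b1 * α7 * (h8 * T) * h7 * h1 * h0 := by rw [← c78]; group
        _ = _ := by rw [r8]; group
    rw [lhs]
    calc a0 * b1 * α7 * β8 * T = a0 * b1 * (β8 * α7) * T := by rw [← cab]; group
      _ = a0 * b1 * (((T * E) * a0 * (T * E)⁻¹) * ((T * E) * b1 * (T * E)⁻¹))⁻¹ * T := by
          rw [ta, tb]; group
      _ = _ := by group

theorem TB_comm (A B : G) (hA : ∀ x, A (x + 1) = A x + 1) (hB : ∀ x, B (x + 1) = B x + 1)
    (c : ℝ) (hAc : A c = c) (hBc : B c = c) :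
    TB (B⁻¹ * A⁻¹ * B * A) := by
  obtain ⟨n, hn⟩ : ∃ n : ℤ, 90 ≤ c + n ∧ c + n ≤ 91 := by
    refine ⟨⌈90 - c⌉, ?_, ?_⟩
    · linarith [Int.le_ceil (90 - c)]
    · linarith [Int.ceil_lt_add_one (90 - c)]
  refine TB_comm_aux A B hA hB (c + n) hn.1 hn.2 ?_ ?_
  · have := addk (L := 1) hA n c
    rw [one_mul, hAc] at this; exact this
  · have := addk (L := 1) hB n c
    rw [one_mul, hBc] at this; exact this

end G

end Pool.Agent.Helper237
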